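import Mathlib

/-! Elementary inequalities. -/

set_option autoImplicit false

namespace Pool.Agent.R526.NW

theorem ax_sq {ε : ℝ} (h0 : 0 < ε) (h1 : ε ≤ 1) : ε ^ 2 ≤ ε := by nlinarith

theorem ax_C {l C : ℝ} (h1 : 1 ≤ l) (hC : 0 ≤ C) : 68 * (l + C) ≤ 68 * (1 + C) * l := by
  nlinarith [mul_nonneg hC (sub_nonneg.2 h1)]

theorem ax_y {L y : ℝ} (h : L < y + 1) (hy : 3 ≤ y) : L ≤ y ^ 2 := by nlinarith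

theorem ax_x {τ t : ℝ} (h0 : 0 < τ) (h1 : τ ≤ 1 / 64) (ht0 : 0 ≤ t) (ht : t ≤ 2 * τ) :
    0 ≤ (1 + τ) * t + τ * τ ∧ (1 + τ) * t + τ * τ ≤ 5 / 2 * τ := by
  have h3 : (1 + τ) * t ≤ (1 + τ) * (2 * τ) := mul_le_mul_of_nonneg_left ht (by linarith)
  constructor
  · positivity
  · nlinarith

theorem ax_e {τ t : ℝ} (h0 : 0 < τ) (h1 : τ ≤ 1 / 64) (ht0 : 0 ≤ t) (ht : t ≤ 2 * τ) :
    ((1 + τ) * t + τ * τ) + 2 * ((1 + τ) * t + τ * τ) ^ 2 ≤ (1 + 12 * τ) * t + 2 * τ ^ 2 := by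
  obtain ⟨h2, h3⟩ := ax_x h0 h1 ht0 ht
  set x := (1 + τ) * t + τ * τ with hxd
  have h5 : x ^ 2 ≤ 5 / 2 * τ * x := by nlinarith
  have h6 : x * (1 + 5 * τ) ≤ (1 + 12 * τ) * t + 2 * τ ^ 2 := by
    rw [hxd]
    have h8 : (1 + τ) * (1 + 5 * τ) ≤ 1 + 12 * τ := by nlinarith
    have h9 := mul_le_mul_of_nonneg_right h8 ht0
    have h10 : τ * τ * (1 + 5 * τ) ≤ 2 * τ ^ 2 := by nlinarith [sq_nonneg τ]
    nlinarith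
  linarith

theorem ax_one {a b : ℝ} (ha : 1 ≤ a) (hb : 1 ≤ b) : 1 ≤ a * b := by nlinarith

theorem ax_sq' {B : ℝ} (hB : 1 ≤ B) : B ≤ B ^ 2 := by nlinarith

theorem ax_D {D R lg lam : ℝ} (h : D ≤ R) (hR : 1 ≤ R) (hlg : 0 ≤ lg) (hlam : 0 ≤ lam) :
    2 * (1 + D * lg) + lam ≤ (2 * (1 + lg) + lam) * R := by
  have h7 := mul_le_mul_of_nonneg_right h hlg
  have h8 := mul_le_mul_of_nonneg_left hR hlam
  nlinarith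

theorem ax_s {s a : ℝ} (h : a ≤ s ^ 2) : s + a ≤ s * (1 + s) := by nlinarith

theorem ax_k {η : ℝ} (h0 : 0 < η) (h1 : η ≤ 1) : η / 8 * (1 + η / 4) ≤ 5 * η / 32 := by nlinarith

theorem ax_h {η κ : ℝ} (h0 : 0 < η) (h1 : η ≤ 1) (hκ : κ ≤ 5 * η / 32) :
    1 + η / 4 ≤ (1 + η) * (1 - κ) := by nlinarith

theorem ax_L {Λ κ : ℝ} (h0 : 0 ≤ Λ) (hκ : κ ≤ 1 / 2) : Λ ≤ 2 * (1 - κ) * Λ := by nlinarith

theorem ax_fin {Λ κ η Y c s : ℝ} (h4 : 1 + s ≤ (1 + η) * (1 - κ)) (hY : 0 ≤ Y)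
    (h6 : Λ ≤ 2 * (1 - κ) * Λ) (hc : Y * (1 + s) = c) :
    Λ + c ≤ (2 * Λ + (1 + η) * Y) * (1 - κ) := by
  have h5 : (1 + s) * Y ≤ (1 + η) * (1 - κ) * Y := mul_le_mul_of_nonneg_right h4 hY
  rw [← hc]
  nlinarith

end Pool.Agent.R526.NW
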