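import Mathlib

/-!
Extrapolation of polynomials of degree `D` from `[0, r]` to `1`.
-/

set_option autoImplicit false

namespace Pool.Agent.R526.NW

open Finset

theorem prod_abs (D j : ℕ) (hj : j ≤ D) :
    ∏ i ∈ (range (D + 1)).erase j, |(j : ℝ) - i| = (j.factorial : ℝ) * ((D - j).factorial : ℝ) := by
  have h1 : (range (D + 1)).erase j = range j ∪ Ico (j + 1) (D + 1) := by
    ext i
    rw [mem_erase, mem_range, mem_union, mem_range, mem_Ico]
    omega
  have h2 : Disjoint (range j) (Ico (j + 1) (D + 1)) := by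
    rw [Finset.disjoint_left]
    intro i hi hi2
    rw [mem_range] at hi
    rw [mem_Ico] at hi2
    omega
  rw [h1, prod_union h2]
  congr 1
  · have h3 : ∀ m : ℕ, ∏ i ∈ range m, |(m : ℝ) - i| = (m.factorial : ℝ) := by
      intro m
      have h4 : ∏ i ∈ range m, |(m : ℝ) - i| = ∏ i ∈ range m, ((i : ℝ) + 1) := by
        rw [← prod_range_reflect]
        refine prod_congr rfl fun i hi => ?_
        rw [mem_range] at hi
        have : ((m - 1 - i : ℕ) : ℝ) = m - 1 - i := by
          rw [Nat.cast_sub (by omega), Nat.cast_sub (by omega)]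
          simp
        rw [this, abs_of_nonneg (by linarith [(Nat.cast_nonneg i : (0 : ℝ) ≤ i)])]
        ring
      rw [h4, ← Finset.prod_range_add_one_eq_factorial]
      push_cast
      rfl
    exact h3 j
  · rw [prod_Ico_eq_prod_range]
    have h4 : D + 1 - (j + 1) = D - j := by omega
    rw [h4, ← Finset.prod_range_add_one_eq_factorial]
    push_cast
    refine prod_congr rfl fun i _ => ?_
    have : (j : ℝ) - (j + 1 + i) = -(i + 1) := by ring
    rw [this, abs_neg, abs_of_nonneg (by positivity)]

theorem extrap (D : ℕ) (r : ℝ) (hr0 : 0 < r) (hr1 : r ≤ 1) : ∃ ρ c : ℕ → ℝ,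
    (∀ j ∈ range (D + 1), 0 ≤ ρ j ∧ ρ j ≤ r) ∧
    ∑ j ∈ range (D + 1), |c j| ≤ Real.exp (1 + D * Real.log (6 / r)) ∧
    ∀ P : Polynomial ℝ, P.natDegree ≤ D → P.eval 1 = ∑ j ∈ range (D + 1), c j * P.eval (ρ j) := by
  set v : ℕ → ℝ := fun j => r * j / (D + 1) with hv
  have hD : (0 : ℝ) < D + 1 := by positivity
  have hvj : ∀ j ∈ range (D + 1), 0 ≤ v j ∧ v j ≤ r := by
    intro j hj
    rw [mem_range] at hj
    have h1 : (j : ℝ) ≤ D + 1 := by exact_mod_cast hj.le
    refine ⟨by simp only [hv]; positivity, ?_⟩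
    simp only [hv]
    rw [div_le_iff₀ hD]
    exact mul_le_mul_of_nonneg_left h1 hr0.le
  have hinj : Set.InjOn v (range (D + 1)) := by
    intro i _ j _ hij
    simp only [hv] at hij
    rw [div_left_inj' hD.ne', mul_right_inj' hr0.ne'] at hij
    exact_mod_cast hij
  set c : ℕ → ℝ := fun j => (Lagrange.basis (range (D + 1)) v j).eval 1 with hc
  refine ⟨v, c, hvj, ?_, fun P hP => ?_⟩
  · have h1 : ∀ j ∈ range (D + 1), |c j| ≤
        ((D + 1) / r) ^ D / ((j.factorial : ℝ) * ((D - j).factorial : ℝ)) := by
      intro j hj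
      have hjD : j ≤ D := by rw [mem_range] at hj; omega
      simp only [hc]
      unfold Lagrange.basis
      rw [Polynomial.eval_prod, abs_prod, ← prod_abs D j hjD, div_eq_mul_inv, ← prod_inv_distrib]
      have hcard : ((range (D + 1)).erase j).card = D := by
        rw [card_erase_of_mem hj, card_range]
        omega
      have h2 : ((D + 1 : ℝ) / r) ^ D = ∏ _i ∈ (range (D + 1)).erase j, ((D + 1 : ℝ) / r) := by
        rw [prod_const, hcard]
      rw [h2, ← prod_mul_distrib]
      refine prod_le_prod (fun _ _ => abs_nonneg _) fun i hi => ?_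
      rw [mem_erase] at hi
      unfold Lagrange.basisDivisor
      rw [Polynomial.eval_mul, Polynomial.eval_C, Polynomial.eval_sub, Polynomial.eval_X,
        Polynomial.eval_C, abs_mul, abs_inv]
      have h3 : |(1 : ℝ) - v i| ≤ 1 := by
        have := hvj i hi.2
        rw [abs_le]
        constructor <;> linarith
      have h4 : |v j - v i| = r / (D + 1) * |(j : ℝ) - i| := by
        have : v j - v i = r / (D + 1) * ((j : ℝ) - i) := by
          simp only [hv]
          ring
        rw [this, abs_mul, abs_of_pos (div_pos hr0 hD)]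
      have h5 : (0 : ℝ) < |(j : ℝ) - i| := by
        rw [abs_pos, sub_ne_zero]
        intro h6
        exact hi.1 (by exact_mod_cast h6.symm)
      rw [h4, mul_inv, inv_div]
      calc (D + 1 : ℝ) / r * |(j : ℝ) - i|⁻¹ * |1 - v i| ≤ (D + 1 : ℝ) / r * |(j : ℝ) - i|⁻¹ * 1 :=
            mul_le_mul_of_nonneg_left h3 (by positivity)
        _ = _ := mul_one _
    refine (sum_le_sum h1).trans ?_
    have h2 : ∀ j ∈ range (D + 1), ((D + 1 : ℝ) / r) ^ D / ((j.factorial : ℝ) * ((D - j).factorial : ℝ)) =
        ((D + 1 : ℝ) / r) ^ D / D.factorial * (D.choose j : ℝ) := by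
      intro j hj
      have hjD : j ≤ D := by rw [mem_range] at hj; omega
      have h3 := Nat.choose_mul_factorial_mul_factorial hjD
      have h4 : (D.choose j : ℝ) * j.factorial * (D - j).factorial = D.factorial := by exact_mod_cast h3
      have h5 : (0 : ℝ) < j.factorial := by exact_mod_cast j.factorial_pos
      have h6 : (0 : ℝ) < (D - j).factorial := by exact_mod_cast (D - j).factorial_pos
      have h7 : (0 : ℝ) < D.factorial := by exact_mod_cast D.factorial_pos
      rw [div_mul_eq_mul_div, div_eq_div_iff (by positivity) (by positivity), ← h4]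
      ring
    rw [sum_congr rfl h2, ← mul_sum]
    have h3 : ∑ j ∈ range (D + 1), (D.choose j : ℝ) = 2 ^ D := by
      exact_mod_cast Nat.sum_range_choose D
    rw [h3]
    have h4 : ((D : ℝ) + 1) ^ D / D.factorial ≤ Real.exp (D + 1) := by
      have h5 := Real.pow_div_factorial_le_exp ((D : ℝ) + 1) (by positivity) (D + 1)
      refine le_trans (le_of_eq ?_) h5
      rw [Nat.factorial_succ, pow_succ]
      push_cast
      have h7 : (0 : ℝ) < D.factorial := by exact_mod_cast D.factorial_pos
      field_simp
    have h5 : Real.exp (1 + D * Real.log (6 / r)) = Real.exp 1 * (6 / r) ^ D := by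
      rw [Real.exp_add, ← Real.log_pow, Real.exp_log (by positivity)]
    rw [h5]
    have h6 : Real.exp ((D : ℝ) + 1) ≤ Real.exp 1 * 3 ^ D := by
      rw [Real.exp_add, mul_comm]
      refine mul_le_mul_of_nonneg_left ?_ (Real.exp_pos _).le
      have h7 : Real.exp (D : ℝ) = Real.exp 1 ^ D := by
        rw [← Real.exp_nat_mul, mul_one]
      rw [h7]
      refine pow_le_pow_left₀ (Real.exp_pos _).le ?_ D
      have := Real.exp_one_lt_d9
      linarith
    calc ((D + 1 : ℝ) / r) ^ D / D.factorial * 2 ^ D =
          (((D : ℝ) + 1) ^ D / D.factorial) * (2 / r) ^ D := by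
          rw [div_pow, div_pow]; ring
      _ ≤ (Real.exp 1 * 3 ^ D) * (2 / r) ^ D :=
          mul_le_mul_of_nonneg_right (h4.trans h6) (by positivity)
      _ = Real.exp 1 * (6 / r) ^ D := by
          rw [mul_assoc, ← mul_pow]
          congr 2
          ring
  · have hdeg : P.degree < ((range (D + 1)).card : ℕ) := by
      rw [card_range]
      refine lt_of_le_of_lt Polynomial.degree_le_natDegree ?_
      exact_mod_cast Nat.lt_succ_of_le hP
    have h1 := Lagrange.eq_interpolate hinj hdeg
    conv_lhs => rw [h1]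
    rw [Lagrange.interpolate_apply, Polynomial.eval_finset_sum]
    refine sum_congr rfl fun j _ => ?_
    rw [Polynomial.eval_mul, Polynomial.eval_C]
    simp only [hc]
    ring

end Pool.Agent.R526.NW
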