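import Pool.Agent.R526.NW.Op
import Pool.Agent.R526.NW.Ext
import Pool.Agent.Y835.SB.Mert
import Pool.Agent.R526.NW.Ax

/-!
Hits, survivors, blocks of primes.
-/

set_option autoImplicit false

namespace Pool.Agent.R526.NW

open Finset Pool.Agent.Y835.SB

theorem per_of_dvd {F : ℕ → ℝ} {d m : ℕ} (hF : Function.Periodic F d) (h : d ∣ m) :
    Function.Periodic F m := by
  obtain ⟨k, rfl⟩ := h
  intro n
  have := hF.nat_mul k n
  rw [Nat.cast_id, mul_comm] at this
  exact this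

/-- the coordinate data of `N` -/
theorem dat_of {N : ℕ} (hN : 0 < N) {Q : Finset ℕ} (hQ : ∀ p ∈ Q, p.Prime ∧ p ∣ N) :
    Dat N (fun p => N / p ^ N.factorization p) (fun p => p ^ N.factorization p) Q := by
  refine ⟨fun p hp => (hQ p hp).1, fun p hp => ?_, fun p hp => ?_, fun p hp => ?_, ?_⟩
  · rw [mul_comm]
    exact Nat.ordProj_mul_ordCompl_eq_self N p
  · exact ⟨_, (hQ p hp).1.factorization_pos_of_dvd hN.ne' (hQ p hp).2, rfl⟩
  · exact Nat.not_dvd_ordCompl (hQ p hp).1 hN.ne'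
  · intro p hp q hq hne
    have h1 : q ∣ p ^ N.factorization p * (N / p ^ N.factorization p) := by
      rw [Nat.ordProj_mul_ordCompl_eq_self]
      exact (hQ q hq).2
    rcases (hQ q hq).1.dvd_mul.1 h1 with h2 | h2
    · exact absurd ((Nat.prime_dvd_prime_iff_eq (hQ q hq).1 (hQ p hp).1).1
        ((hQ q hq).1.dvd_of_dvd_pow h2)) hne
    · exact h2

theorem dvd_compl {N d p : ℕ} (hp : p.Prime) (hd : d ∣ N) (hpd : ¬ p ∣ d) :
    d ∣ N / p ^ N.factorization p := by
  have h1 : d ∣ p ^ N.factorization p * (N / p ^ N.factorization p) := by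
    rw [Nat.ordProj_mul_ordCompl_eq_self]
    exact hd
  have h2 : Nat.Coprime d (p ^ N.factorization p) :=
    Nat.Coprime.pow_right _ ((Nat.Prime.coprime_iff_not_dvd hp).2 hpd).symm
  exact h2.dvd_of_dvd_mul_left h1

/-- the number of `h ∈ H` with `p ∣ n + h` -/
noncomputable def hit (H : Finset ℕ) (p n : ℕ) : ℝ := ((H.filter (fun h => p ∣ n + h)).card : ℝ)

theorem hit_nonneg (H : Finset ℕ) (p n : ℕ) : 0 ≤ hit H p n := Nat.cast_nonneg _

theorem hit_per (H : Finset ℕ) {p L : ℕ} (h : p ∣ L) : Function.Periodic (hit H p) L := by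
  intro n
  unfold hit
  congr 2
  refine filter_congr fun x _ => ?_
  have e : n + L + x = n + x + L := by ring
  rw [e]
  exact (Nat.dvd_add_iff_left h).symm

theorem Av_hit (H : Finset ℕ) {K M p k : ℕ} (hp : p.Prime) (hK : K = p ^ k) (hk : 1 ≤ k)
    (hM : ¬ p ∣ M) (n : ℕ) : Av M K (hit H p) n = H.card / p := by
  have hK0 : 0 < K := by rw [hK]; exact pow_pos hp.pos k
  have hKr : (0 : ℝ) < K := by exact_mod_cast hK0
  have hpr : (0 : ℝ) < p := by exact_mod_cast hp.pos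
  unfold Av hit
  have h1 : ∀ t, ((H.filter (fun h => p ∣ n + M * t + h)).card : ℝ) =
      ∑ h ∈ H, if p ∣ (n + h) + M * t then (1 : ℝ) else 0 := by
    intro t
    rw [sum_boole]
    congr 2
    refine filter_congr fun x _ => ?_
    have e : n + M * t + x = n + x + M * t := by ring
    rw [e]
  rw [sum_congr rfl fun t _ => h1 t, sum_comm]
  have h2 : ∀ h ∈ H, ∑ t ∈ range K, (if p ∣ (n + h) + M * t then (1 : ℝ) else 0) = K / p := by
    intro h _
    rw [sum_boole]
    have h3 := fib_card hp hK hk hM (n + h)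
    rw [eq_div_iff hpr.ne']
    have h4 : ((((range K).filter (fun t => p ∣ n + h + M * t)).card * p : ℕ) : ℝ) = K := by
      exact_mod_cast h3
    rw [← h4]
    push_cast
    rfl
  rw [sum_congr rfl h2, sum_const, nsmul_eq_mul]
  field_simp

theorem exp_chord {θ m x : ℝ} (hm : 0 < m) (hx0 : 0 ≤ x) (hx : x ≤ m) :
    Real.exp (θ * x) ≤ 1 + x * ((Real.exp (θ * m) - 1) / m) := by
  have h1 := convexOn_exp.2 (Set.mem_univ (0 : ℝ)) (Set.mem_univ (θ * m))
    (show 0 ≤ 1 - x / m by rw [sub_nonneg, div_le_one hm]; exact hx)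
    (show 0 ≤ x / m by positivity) (by ring)
  rw [smul_eq_mul, smul_eq_mul, smul_eq_mul, smul_eq_mul, mul_zero, zero_add, Real.exp_zero] at h1
  have e1 : x / m * (θ * m) = θ * x := by field_simp
  rw [e1] at h1
  refine h1.trans (le_of_eq ?_)
  field_simp
  ring

theorem exp_mix {κ y : ℝ} (h0 : 0 ≤ κ) (h1 : κ ≤ 1) : Real.exp (κ * y) ≤ κ * Real.exp y + (1 - κ) := by
  have h2 := convexOn_exp.2 (Set.mem_univ (0 : ℝ)) (Set.mem_univ y)
    (show 0 ≤ 1 - κ by linarith) h0 (by ring)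
  rw [smul_eq_mul, smul_eq_mul, smul_eq_mul, smul_eq_mul, mul_zero, zero_add, Real.exp_zero] at h2
  linarith

/-- the elements of `H` not hit by the primes of `Q` -/
def surv (Q H : Finset ℕ) (n : ℕ) : Finset ℕ := H.filter (fun h => ∀ p ∈ Q, ¬ p ∣ n + h)

theorem surv_union (Q Q' H : Finset ℕ) (n : ℕ) : surv (Q ∪ Q') H n = surv Q' (surv Q H n) n := by
  unfold surv
  rw [filter_filter]
  refine filter_congr fun h _ => ?_
  constructor
  · intro h1
    exact ⟨fun p hp => h1 p (mem_union_left _ hp), fun p hp => h1 p (mem_union_right _ hp)⟩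
  · rintro ⟨h1, h2⟩ p hp
    rcases mem_union.1 hp with h3 | h3
    · exact h1 p h3
    · exact h2 p h3

theorem surv_per {Q : Finset ℕ} (H : Finset ℕ) {L : ℕ} (hQ : ∀ p ∈ Q, p ∣ L) (n : ℕ) :
    surv Q H (n + L) = surv Q H n := by
  unfold surv
  refine filter_congr fun h _ => forall₂_congr fun p hp => not_congr ?_
  have e : n + L + h = n + h + L := by ring
  rw [e]
  exact (Nat.dvd_add_iff_left (hQ p hp)).symm

theorem surv_sub (Q H : Finset ℕ) (n : ℕ) : surv Q H n ⊆ H := filter_subset _ _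

/-- at least `|H|` minus the number of hits -/
theorem surv_ge (Q H : Finset ℕ) (n : ℕ) :
    (H.card : ℝ) - ∑ p ∈ Q, hit H p n ≤ ((surv Q H n).card : ℝ) := by
  have h1 : H ⊆ surv Q H n ∪ Q.biUnion (fun p => H.filter (fun h => p ∣ n + h)) := by
    intro h hh
    rw [mem_union]
    by_cases h2 : ∀ p ∈ Q, ¬ p ∣ n + h
    · exact Or.inl (mem_filter.2 ⟨hh, h2⟩)
    · push_neg at h2
      obtain ⟨p, hp, hd⟩ := h2
      exact Or.inr (mem_biUnion.2 ⟨p, hp, mem_filter.2 ⟨hh, hd⟩⟩)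
  have h2 := (card_le_card h1).trans (card_union_le _ _)
  have h3 : (Q.biUnion (fun p => H.filter (fun h => p ∣ n + h))).card ≤
      ∑ p ∈ Q, (H.filter (fun h => p ∣ n + h)).card := card_biUnion_le
  have h4 : (H.card : ℝ) ≤ (surv Q H n).card + ∑ p ∈ Q, ((H.filter (fun h => p ∣ n + h)).card : ℝ) := by
    exact_mod_cast h2.trans (Nat.add_le_add_left h3 _)
  unfold hit
  linarith

theorem one_sub_ge {x : ℝ} (h0 : 0 ≤ x) (h1 : x ≤ 1 / 2) : Real.exp (-(x + 2 * x ^ 2)) ≤ 1 - x := by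
  have h2 := Real.add_one_le_exp (x + 2 * x ^ 2)
  have h3 : 0 < Real.exp (x + 2 * x ^ 2) := Real.exp_pos _
  rw [Real.exp_neg, inv_le_comm₀ h3 (by linarith)]
  refine le_trans ?_ h2
  rw [inv_le_iff_one_le_mul₀ (by linarith)]
  nlinarith [mul_nonneg (sq_nonneg x) (by linarith : 0 ≤ 1 - 2 * x)]

/-- the growth condition -/
theorem ev_big (ε C A B : ℝ) (hε : 0 < ε) (hA : 0 ≤ A) (hC : 0 ≤ C) (hB : 1 ≤ B) :
    ∃ l₀ : ℝ, 1 ≤ l₀ ∧ ∀ l : ℝ, l₀ ≤ l →
      A * (l + C) ^ 3 * (1 + Real.log (B * (l + C))) ≤ ε * l ^ 4 := by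
  have h1 := (isLittleO_log_rpow_atTop (show (0 : ℝ) < 1 / 2 by norm_num)).def one_pos
  have h2 : ∀ᶠ l : ℝ in Filter.atTop, (8 * A) * (1 + Real.log (2 * B) + l ^ (1 / 2 : ℝ)) ≤ ε * l := by
    have t1 : Filter.Tendsto (fun l : ℝ => l ^ (1 / 2 : ℝ)) Filter.atTop Filter.atTop :=
      tendsto_rpow_atTop (by norm_num)
    filter_upwards [t1.eventually_ge_atTop ((8 * A) * (2 + Real.log (2 * B)) / ε + 1),
      Filter.eventually_ge_atTop (1 : ℝ)] with l hl hl1
    have hl0 : 0 < l := by linarith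
    set u := l ^ (1 / 2 : ℝ) with hu
    have huu : u * u = l := by
      rw [hu, ← Real.rpow_add hl0]
      norm_num
    have hu1 : 1 ≤ u := by
      have h3 : 0 ≤ Real.log (2 * B) := Real.log_nonneg (by linarith)
      have : 0 ≤ (8 * A) * (2 + Real.log (2 * B)) / ε := by positivity
      linarith
    have h3 : 0 ≤ Real.log (2 * B) := Real.log_nonneg (by linarith)
    have h4 : (8 * A) * (2 + Real.log (2 * B)) ≤ ε * u := by
      have h5 : (8 * A) * (2 + Real.log (2 * B)) / ε ≤ u := by linarith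
      rw [div_le_iff₀ hε] at h5
      linarith
    calc (8 * A) * (1 + Real.log (2 * B) + u) ≤ (8 * A) * ((2 + Real.log (2 * B)) * u) := by
          refine mul_le_mul_of_nonneg_left ?_ (by positivity)
          nlinarith
      _ = (8 * A) * (2 + Real.log (2 * B)) * u := by ring
      _ ≤ ε * u * u := mul_le_mul_of_nonneg_right h4 (by linarith)
      _ = ε * l := by rw [mul_assoc, huu]
  obtain ⟨l₁, hl₁⟩ := Filter.eventually_atTop.1 (h1.and h2)
  refine ⟨max (max l₁ C) 1, le_max_right _ _, fun l hl => ?_⟩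
  have hl1 : 1 ≤ l := (le_max_right _ _).trans hl
  have hlC : C ≤ l := ((le_max_right _ _).trans (le_max_left _ _)).trans hl
  obtain ⟨a1, a2⟩ := hl₁ l (((le_max_left _ _).trans (le_max_left _ _)).trans hl)
  have hl0 : 0 < l := by linarith
  have hlog0 : 0 ≤ Real.log l := Real.log_nonneg hl1
  rw [one_mul, Real.norm_of_nonneg hlog0, Real.norm_of_nonneg (by positivity)] at a1
  have h3 : Real.log (B * (l + C)) ≤ Real.log (2 * B) + l ^ (1 / 2 : ℝ) := by
    have h4 : Real.log (B * (l + C)) ≤ Real.log (2 * B * l) :=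
      Real.log_le_log (by positivity) (by nlinarith)
    rw [Real.log_mul (by positivity) hl0.ne'] at h4
    linarith
  have h5 : (l + C) ^ 3 ≤ 8 * l ^ 3 := by
    have : (l + C) ^ 3 ≤ (2 * l) ^ 3 := pow_le_pow_left₀ (by linarith) (by linarith) 3
    refine this.trans (le_of_eq ?_)
    ring
  have h6 : 0 ≤ 1 + Real.log (B * (l + C)) := by
    have : 0 ≤ Real.log (B * (l + C)) := Real.log_nonneg (by nlinarith)
    linarith
  calc A * (l + C) ^ 3 * (1 + Real.log (B * (l + C)))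
      ≤ A * (8 * l ^ 3) * (1 + Real.log (B * (l + C))) := by
        refine mul_le_mul_of_nonneg_right ?_ h6
        exact mul_le_mul_of_nonneg_left h5 hA
    _ ≤ A * (8 * l ^ 3) * (1 + Real.log (2 * B) + l ^ (1 / 2 : ℝ)) :=
        mul_le_mul_of_nonneg_left (by linarith) (by positivity)
    _ = l ^ 3 * ((8 * A) * (1 + Real.log (2 * B) + l ^ (1 / 2 : ℝ))) := by ring
    _ ≤ l ^ 3 * (ε * l) := mul_le_mul_of_nonneg_left a2 (by positivity)
    _ = ε * l ^ 4 := by ring

/-- sum of the reciprocals of the smaller primes -/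
noncomputable def Ff (P : Finset ℕ) (p : ℕ) : ℝ := ∑ q ∈ P.filter (fun q => q < p), 1 / (q : ℝ)

theorem Ff_nonneg (P : Finset ℕ) (p : ℕ) : 0 ≤ Ff P p := sum_nonneg fun _ _ => by positivity

theorem Ff_mono (P : Finset ℕ) {p q : ℕ} (h : p ≤ q) : Ff P p ≤ Ff P q := by
  unfold Ff
  refine sum_le_sum_of_subset_of_nonneg (fun x hx => ?_) fun _ _ _ => by positivity
  rw [mem_filter] at hx ⊢
  exact ⟨hx.1, by omega⟩

/-- the blocks -/
noncomputable def Jj (P : Finset ℕ) (τ : ℝ) (i : ℕ) : Finset ℕ :=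
  P.filter (fun p => ⌊Ff P p / τ⌋₊ = i)

theorem Jj_sum {P : Finset ℕ} {τ : ℝ} (hτ : 0 < τ) (hP : ∀ p ∈ P, 1 / (p : ℝ) ≤ τ) (i : ℕ) :
    ∑ p ∈ Jj P τ i, 1 / (p : ℝ) ≤ 2 * τ := by
  rcases (Jj P τ i).eq_empty_or_nonempty with h | h
  · rw [h, sum_empty]; positivity
  set a := (Jj P τ i).min' h with ha
  set b := (Jj P τ i).max' h with hb
  have ha' := (Jj P τ i).min'_mem h
  have hb' := (Jj P τ i).max'_mem h
  rw [← ha] at ha'
  rw [← hb] at hb'
  have hab : a ≤ b := (Jj P τ i).min'_le b hb'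
  unfold Jj at ha' hb'
  rw [mem_filter] at ha' hb'
  have h1 : (i : ℝ) * τ ≤ Ff P a := by
    have h2 := Nat.floor_le (div_nonneg (Ff_nonneg P a) hτ.le)
    rw [ha'.2, le_div_iff₀ hτ] at h2
    exact h2
  have h2 : Ff P b < (i + 1) * τ := by
    have h3 := Nat.lt_floor_add_one (Ff P b / τ)
    rw [hb'.2, div_lt_iff₀ hτ] at h3
    exact h3
  have h3 : Ff P b = Ff P a + ∑ q ∈ P.filter (fun q => a ≤ q ∧ q < b), 1 / (q : ℝ) := by
    unfold Ff
    rw [← sum_filter_add_sum_filter_not (P.filter (fun q => q < b)) (fun q => q < a), filter_filter,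
      filter_filter]
    congr 1
    · refine sum_congr (filter_congr fun q _ => ?_) fun _ _ => rfl
      omega
    · refine sum_congr (filter_congr fun q _ => ?_) fun _ _ => rfl
      omega
  have h4 : Jj P τ i ⊆ insert b (P.filter (fun q => a ≤ q ∧ q < b)) := by
    intro q hq
    have h5 := (Jj P τ i).min'_le q hq
    have h6 := (Jj P τ i).le_max' q hq
    rw [← ha] at h5
    rw [← hb] at h6
    have h7 := (mem_filter.1 hq).1
    rw [mem_insert, mem_filter]
    rcases h6.eq_or_lt with h8 | h8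
    · exact Or.inl h8
    · exact Or.inr ⟨h7, h5, h8⟩
  have h5 := sum_le_sum_of_subset_of_nonneg (f := fun q : ℕ => 1 / (q : ℝ)) h4
    (fun _ _ _ => by positivity)
  rw [sum_insert (by rw [mem_filter]; omega)] at h5
  have h6 := hP b hb'.1
  linarith

end Pool.Agent.R526.NW
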