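import Pool.Agent.R526.NW.PFin

/-!
Duality: exact equidistribution to level `X` on the integers with the expected number of survivors.
-/

set_option autoImplicit false

namespace Pool.Agent.R526.NW

open Finset Pool.Agent.Y835.SB

theorem count_class (N d b : ℕ) (hd : 0 < d) (hdN : d ∣ N) :
    (((range N).filter (fun n => n ≡ b [MOD d])).card : ℝ) = N / d := by
  have h1 := Nat.count_modEq_card N hd b
  rw [Nat.count_eq_card_filter_range] at h1
  rw [Nat.mod_eq_zero_of_dvd hdN] at h1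
  simp only [Nat.not_lt_zero, if_false, add_zero] at h1
  rw [h1, Nat.cast_div hdN (by exact_mod_cast hd.ne')]

/-- the indicator functions of the residue classes to the admissible moduli -/
def Sx (P : Finset ℕ) (X N : ℕ) : Set (Fin N → ℝ) :=
  {g | ∃ d b : ℕ, d ∣ N ∧ ∏ p ∈ P.filter (fun p => p ∣ d), p ≤ X ∧
    ∀ i : Fin N, g i = if (i : ℕ) ≡ b [MOD d] then 1 else 0}

open Classical in
/-- Hahn-Banach on the span -/
theorem extend {N : ℕ} (V : Submodule ℝ (Fin N → ℝ)) (B : Finset (Fin N)) {δ : ℝ} (hδ : 0 ≤ δ)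
    (h : ∀ w ∈ V, ∑ i ∈ B, w i ≤ δ * ∑ i ∈ Bᶜ, |w i|) :
    ∃ r : Fin N → ℝ, (∀ i ∈ B, r i = 0) ∧ (∀ i, |r i| ≤ δ) ∧
      ∀ w ∈ V, ∑ i ∈ B, w i = ∑ i, w i * r i := by
  set φ : (Fin N → ℝ) →ₗ[ℝ] ℝ := ∑ i ∈ B, LinearMap.proj i with hφ
  have hφa : ∀ w, φ w = ∑ i ∈ B, w i := by
    intro w
    rw [hφ, LinearMap.sum_apply]
    rfl
  set Nn : (Fin N → ℝ) → ℝ := fun w => δ * ∑ i ∈ Bᶜ, |w i| with hNn
  obtain ⟨g, hg1, hg2⟩ := exists_extension_of_le_sublinear
    (⟨V, φ.comp V.subtype⟩ : (Fin N → ℝ) →ₗ.[ℝ] ℝ) Nn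
    (by
      intro c hc x
      simp only [hNn, Pi.smul_apply, smul_eq_mul, abs_mul, abs_of_pos hc]
      rw [← mul_sum]
      ring)
    (by
      intro x y
      simp only [hNn, Pi.add_apply]
      rw [← mul_add, ← sum_add_distrib]
      exact mul_le_mul_of_nonneg_left (sum_le_sum fun i _ => abs_add_le _ _) hδ)
    (by
      rintro ⟨x, hx⟩
      have h1 := h x hx
      show φ x ≤ _
      rw [hφa]
      exact h1)
  set e : Fin N → Fin N → ℝ := fun i j => if i = j then 1 else 0 with he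
  have hNe : ∀ i, Nn (e i) = if i ∈ B then 0 else δ := by
    intro i
    simp only [hNn, he]
    by_cases hi : i ∈ B
    · rw [if_pos hi]
      have : ∀ j ∈ Bᶜ, |(if i = j then (1 : ℝ) else 0)| = 0 := by
        intro j hj
        rw [if_neg, abs_zero]
        rintro rfl
        exact (Finset.mem_compl.1 hj) hi
      rw [sum_congr rfl this, sum_const_zero, mul_zero]
    · rw [if_neg hi]
      have : ∀ j ∈ Bᶜ, |(if i = j then (1 : ℝ) else 0)| = if i = j then 1 else 0 := by
        intro j _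
        split_ifs <;> simp
      rw [sum_congr rfl this, sum_ite_eq, if_pos (Finset.mem_compl.2 hi), mul_one]
  have hNneg : ∀ i, Nn (-e i) = Nn (e i) := by
    intro i
    simp only [hNn, Pi.neg_apply, abs_neg]
  have hb1 : ∀ i, g (e i) ≤ if i ∈ B then 0 else δ := fun i => by
    rw [← hNe]
    exact hg2 _
  have hb2 : ∀ i, -g (e i) ≤ if i ∈ B then 0 else δ := fun i => by
    rw [← hNe, ← hNneg, ← map_neg]
    exact hg2 _
  refine ⟨fun i => g (e i), fun i hi => ?_, fun i => ?_, fun w hw => ?_⟩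
  · have h1 := hb1 i
    have h2 := hb2 i
    rw [if_pos hi] at h1 h2
    linarith
  · have h1 := hb1 i
    have h2 := hb2 i
    have h3 : (if i ∈ B then (0 : ℝ) else δ) ≤ δ := by split_ifs <;> linarith
    rw [abs_le]
    constructor <;> linarith
  · have h1 := hg1 ⟨w, hw⟩
    have h2 : g w = ∑ i ∈ B, w i := by
      rw [← hφa]
      exact h1
    rw [← h2, LinearMap.pi_apply_eq_sum_univ g w]
    rfl

open Classical in
theorem dual (ε : ℝ) (hε : 0 < ε) (hε1 : ε ≤ 1) : ∃ X₀ : ℕ, ∀ X : ℕ, X₀ ≤ X →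
    ∀ (P H : Finset ℕ) (m : ℝ), 0 < m → (∀ p ∈ P, p.Prime ∧ p ≤ X) →
    (∀ p ∈ P, ∀ n, hit H p n ≤ m) →
    m * (Real.log X * Real.log (Real.log X) ^ 3) ≤ H.card →
    ∀ N : ℕ, 0 < N → (∀ p ∈ P, p ∣ N) → ∃ f : ℕ → ℝ, (∀ n, f (n + N) = f n) ∧
      (∀ n, f n = 0 ∨ (|f n - 1| ≤ ε ∧
        (1 - ε) * ((∏ p ∈ P, (1 - 1 / (p : ℝ))) * H.card) ≤ ((surv P H n).card : ℝ))) ∧
      ∑ n ∈ range N, |f n - 1| ≤ ε * N ∧
      ∀ d : ℕ, d ∣ N → ∏ p ∈ P.filter (fun p => p ∣ d), p ≤ X → ∀ b : ℕ,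
        ∑ n ∈ (range N).filter (fun n => n ≡ b [MOD d]), f n = N / d := by
  set ε₁ : ℝ := ε / 4 with hε₁
  have hε₁0 : 0 < ε₁ := by positivity
  obtain ⟨X₀, H0⟩ := conc ε₁ hε₁0 (by rw [hε₁]; linarith)
  refine ⟨max X₀ 1, fun X hX P H m hm hP hH hcard N hN hPN => ?_⟩
  have hX1 : 1 ≤ X := (le_max_right _ _).trans hX
  set t : ℝ := (1 - ε₁) * ((∏ p ∈ P, (1 - 1 / (p : ℝ))) * H.card) with ht
  set V : Submodule ℝ (Fin N → ℝ) := Submodule.span ℝ (Sx P X N) with hV
  set B : Finset (Fin N) := univ.filter (fun i => ((surv P H i).card : ℝ) < t) with hB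
  have hconc : ∀ w ∈ V, ∑ i ∈ B, |w i| ≤ ε₁ * ∑ i, |w i| := by
    intro w hw
    rw [hV, Submodule.mem_span_set] at hw
    obtain ⟨c, hc, hcw⟩ := hw
    have hex : ∀ g : Fin N → ℝ, ∃ d b : ℕ, g ∈ c.support → (d ∣ N ∧
        ∏ p ∈ P.filter (fun p => p ∣ d), p ≤ X ∧
        ∀ i : Fin N, g i = if (i : ℕ) ≡ b [MOD d] then 1 else 0) := by
      intro g
      by_cases hg : g ∈ c.support
      · obtain ⟨d, b, h⟩ := hc hg
        exact ⟨d, b, fun _ => h⟩
      · exact ⟨0, 0, fun h => absurd h hg⟩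
    choose dd bb hdb using hex
    set F : (Fin N → ℝ) → ℕ → ℝ := fun g n => c g * (if n ≡ bb g [MOD dd g] then 1 else 0) with hF
    set wN : ℕ → ℝ := fun n => ∑ g ∈ c.support, F g n with hwN
    have hwi : ∀ i : Fin N, wN i = w i := by
      intro i
      rw [← hcw, Finsupp.sum, Finset.sum_apply]
      simp only [hwN, hF]
      refine sum_congr rfl fun g hg => ?_
      rw [Pi.smul_apply, smul_eq_mul, (hdb g hg).2.2 i]
    have h1 := H0 (Fin N → ℝ) X ((le_max_left _ _).trans hX) P H m hm hP hH hcard c.support dd F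
      (fun g hg => by
        obtain ⟨g1, g2, g3⟩ := hdb g hg
        refine ⟨Nat.pos_of_dvd_of_pos g1 hN, g2, fun n => ?_⟩
        simp only [hF]
        have : (n + dd g ≡ bb g [MOD dd g]) ↔ (n ≡ bb g [MOD dd g]) := by
          unfold Nat.ModEq
          rw [Nat.add_mod_right]
        simp only [this])
      wN (fun n => rfl) N hN hPN (fun g hg => (hdb g hg).1)
    rw [Finset.sum_range, Finset.sum_range] at h1
    rw [← ht] at h1
    simp only [hwi] at h1
    refine le_trans (le_of_eq ?_) h1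
    rw [hB, sum_filter]
    refine sum_congr rfl fun i _ => ?_
    split_ifs
    · rw [mul_one]
    · rw [mul_zero]
  have hle : ∀ w ∈ V, ∑ i ∈ B, |w i| ≤ 2 * ε₁ * ∑ i ∈ Bᶜ, |w i| := by
    intro w hw
    have h1 := hconc w hw
    have h2 := sum_add_sum_compl B (fun i => |w i|)
    have h3 : 0 ≤ ∑ i ∈ Bᶜ, |w i| := sum_nonneg fun _ _ => abs_nonneg _
    have h4 : 0 ≤ ∑ i ∈ B, |w i| := sum_nonneg fun _ _ => abs_nonneg _
    rw [← h2] at h1
    have h5 : ε₁ ≤ 1 / 4 := by rw [hε₁]; linarith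
    nlinarith
  obtain ⟨r, hr1, hr2, hr3⟩ := extend V B (δ := 2 * ε₁) (by positivity) fun w hw =>
    (sum_le_sum fun i _ => le_abs_self _).trans (hle w hw)
  -- the weight
  set F0 : Fin N → ℝ := fun i => if i ∈ B then 0 else 1 + r i with hF0
  set f : ℕ → ℝ := fun n => F0 ⟨n % N, Nat.mod_lt n hN⟩ with hf
  have hfi : ∀ i : Fin N, f i = F0 i := by
    intro i
    simp only [hf]
    congr 1
    exact Fin.ext (Nat.mod_eq_of_lt i.2)
  have hbad : ∀ i, |F0 i - 1| ≤ (if i ∈ B then 1 else 0) + 2 * ε₁ := by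
    intro i
    simp only [hF0]
    split_ifs
    · rw [zero_sub, abs_neg, abs_one]
      linarith
    · rw [add_sub_cancel_left, zero_add]
      exact hr2 i
  have hcB : (B.card : ℝ) ≤ 2 * ε₁ * N := by
    have h1 : (fun _ : Fin N => (1 : ℝ)) ∈ V := by
      refine Submodule.subset_span ⟨1, 0, one_dvd N, ?_, fun i => ?_⟩
      · refine le_trans (le_of_eq ?_) hX1
        refine prod_eq_one fun p hp => ?_
        rw [mem_filter] at hp
        exact Nat.dvd_one.1 hp.2
      · rw [if_pos (Nat.modEq_one)]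
    have h2 := hle _ h1
    rw [sum_congr rfl fun i _ => abs_one, sum_congr rfl fun i _ => abs_one, sum_const, sum_const,
      nsmul_eq_mul, nsmul_eq_mul, mul_one, mul_one] at h2
    refine h2.trans (mul_le_mul_of_nonneg_left ?_ (by positivity))
    have h3 := card_le_univ (Bᶜ)
    rw [Fintype.card_fin] at h3
    exact_mod_cast h3
  refine ⟨f, fun n => ?_, fun n => ?_, ?_, ?_⟩
  · simp only [hf]
    congr 1
    exact Fin.ext (Nat.add_mod_right n N)
  · simp only [hf]
    set i : Fin N := ⟨n % N, Nat.mod_lt n hN⟩ with hi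
    by_cases hiB : i ∈ B
    · left
      simp only [hF0]
      rw [if_pos hiB]
    · right
      have h1 : |F0 i - 1| ≤ 2 * ε₁ := by
        have := hbad i
        rwa [if_neg hiB, zero_add] at this
      refine ⟨h1.trans (by rw [hε₁]; linarith), ?_⟩
      have h2 : ¬ ((surv P H i).card : ℝ) < t := fun h => hiB (mem_filter.2 ⟨mem_univ _, h⟩)
      have h3 : surv P H (n % N) = surv P H n := by
        have hper : Function.Periodic (fun n => surv P H n) N := fun n => surv_per H hPN n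
        exact hper.map_mod_nat n
      have h4 : ((i : Fin N) : ℕ) = n % N := rfl
      rw [h4, h3] at h2
      refine le_trans ?_ (not_lt.1 h2)
      rw [ht]
      refine mul_le_mul_of_nonneg_right (by rw [hε₁]; linarith) ?_
      refine mul_nonneg (prod_nonneg fun p hp => ?_) (Nat.cast_nonneg _)
      have : (2 : ℝ) ≤ p := by exact_mod_cast (hP p hp).1.two_le
      rw [sub_nonneg, div_le_one (by linarith)]; linarith
  · rw [Finset.sum_range]
    have h1 : ∀ i : Fin N, |f i - 1| ≤ (if i ∈ B then 1 else 0) + 2 * ε₁ := fun i => by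
      rw [hfi]
      exact hbad i
    refine (sum_le_sum fun i _ => h1 i).trans ?_
    rw [sum_add_distrib, sum_const, card_univ, Fintype.card_fin, nsmul_eq_mul, sum_ite_mem,
      univ_inter, sum_const, nsmul_eq_mul, mul_one]
    rw [hε₁] at hcB ⊢
    linarith
  · intro d hd hdX b
    have hd0 : 0 < d := Nat.pos_of_dvd_of_pos hd hN
    set w : Fin N → ℝ := fun i => if (i : ℕ) ≡ b [MOD d] then 1 else 0 with hw
    have hwV : w ∈ V := Submodule.subset_span ⟨d, b, hd, hdX, fun i => rfl⟩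
    have h1 := hr3 w hwV
    have h2 : ∑ n ∈ (range N).filter (fun n => n ≡ b [MOD d]), f n = ∑ i, w i * F0 i := by
      rw [sum_filter, Finset.sum_range]
      refine sum_congr rfl fun i _ => ?_
      rw [hfi]
      simp only [hw]
      split_ifs
      · rw [one_mul]
      · rw [zero_mul]
    have h3 : ∑ i, w i * F0 i = ∑ i ∈ Bᶜ, w i + ∑ i, w i * r i := by
      have h4 : ∀ i, w i * F0 i = (if i ∈ Bᶜ then w i else 0) + w i * r i := by
        intro i
        simp only [hF0]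
        by_cases hi : i ∈ B
        · rw [if_pos hi, if_neg (by rw [Finset.mem_compl]; exact not_not.2 hi), hr1 i hi]
          ring
        · rw [if_neg hi, if_pos (Finset.mem_compl.2 hi)]
          ring
      rw [sum_congr rfl fun i _ => h4 i, sum_add_distrib, sum_ite_mem, univ_inter]
    rw [h2, h3, ← h1, add_comm, sum_add_sum_compl, ← count_class N d b hd0 hd]
    have h5 : ∑ i, w i = ∑ n ∈ range N, if n ≡ b [MOD d] then (1 : ℝ) else 0 := by
      rw [Finset.sum_range]
    rw [h5, sum_boole]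

end Pool.Agent.R526.NW
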