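import Pool.Agent.R526.NW.Base

/-!
The exponential moment of the number of hits at one block of primes, with respect to the absolute value
of a function of bounded degree.
-/

set_option autoImplicit false

namespace Pool.Agent.R526.NW

open Finset Pool.Agent.Y835.SB

theorem Av_abs {M K : ℕ} {F G : ℕ → ℝ} (h : ∀ n, |F n| ≤ G n) (n : ℕ) : |Av M K F n| ≤ Av M K G n := by
  unfold Av
  rw [abs_div, Nat.abs_cast]
  exact div_le_div_of_nonneg_right ((abs_sum_le_sum_abs _ _).trans (sum_le_sum fun _ _ => h _))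
    (Nat.cast_nonneg _)

theorem Tt_abs {M K : ℕ → ℕ} {ρ : ℝ} (h0 : 0 ≤ ρ) (h1 : ρ ≤ 1) {F G : ℕ → ℝ}
    (h : ∀ n, |F n| ≤ G n) : ∀ (l : List ℕ) (n : ℕ), |Tt M K ρ l F n| ≤ Tt M K ρ l G n
  | [] => h
  | p :: l => fun n => by
    show |Rr M K ρ p (Tt M K ρ l F) n| ≤ Rr M K ρ p (Tt M K ρ l G) n
    unfold Rr
    refine (abs_add_le _ _).trans ?_
    rw [abs_mul, abs_mul, abs_of_nonneg h0, abs_of_nonneg (by linarith : 0 ≤ 1 - ρ)]
    exact add_le_add (mul_le_mul_of_nonneg_left (Tt_abs h0 h1 h l n) h0)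
      (mul_le_mul_of_nonneg_left (Av_abs (Tt_abs h0 h1 h l) n) (by linarith))

theorem mgf_hits {N : ℕ} {M K : ℕ → ℕ} {l : List ℕ} (hnd : l.Nodup)
    (hD : Dat N M K l.toFinset) {ι : Type} (I : Finset ι) (T : ι → Finset ℕ) (f : ι → ℕ → ℝ)
    (hfN : ∀ i ∈ I, Function.Periodic (f i) N)
    (hfM : ∀ i ∈ I, ∀ p ∈ l, p ∉ T i → Function.Periodic (f i) (M p)) (D : ℕ)
    (hdeg : ∀ i ∈ I, (l.filter (fun p => p ∈ T i)).length ≤ D) {w₀ : ℕ → ℝ}
    (hw : ∀ n, w₀ n = ∑ i ∈ I, f i n) (H : Finset ℕ) {m : ℝ} (hm : 0 < m)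
    (hM : ∀ p ∈ l, ∀ n, hit H p n ≤ m) {η : ℝ} (hη0 : 0 < η) (hη1 : η ≤ 1) :
    ∑ n ∈ range N, |w₀ n| * Real.exp (η / (4 * m) * (l.map fun p => hit H p n).sum) ≤
      Real.exp (2 * (1 + D * Real.log (48 / η)) +
        (1 + η) * (η / (4 * m) * ((l.map fun p : ℕ => 1 / (p : ℝ)).sum * H.card))) *
        ∑ n ∈ range N, |w₀ n| := by
  set w : ℕ → ℝ := fun n => |w₀ n| with hwdef
  have hw0 : ∀ n, 0 ≤ w n := fun n => abs_nonneg _
  have hKp : ∀ p ∈ l, 0 < K p := fun p hp => hD.Kpos (List.mem_toFinset.2 hp)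
  have hMK : ∀ p ∈ l, M p * K p = N := fun p hp => hD.mul p (List.mem_toFinset.2 hp)
  set s : ℝ := η / 4 with hs
  have hs0 : 0 < s := by positivity
  have hs1 : s ≤ 1 := by rw [hs]; linarith
  set θ : ℝ := s / m with hθ
  have hθ0 : 0 < θ := by positivity
  have hθm : θ * m = s := by rw [hθ]; field_simp
  set r : ℝ := η / 8 with hr
  have hr0 : 0 < r := by positivity
  have hr1 : r ≤ 1 := by rw [hr]; linarith
  have hes : Real.exp s - 1 ≤ s * (1 + s) := by
    have h1 := Real.abs_exp_sub_one_sub_id_le (x := s) (by rw [abs_of_pos hs0]; exact hs1)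
    have h2 := (abs_le.1 h1).2
    have h3 := ax_s (s := s) (le_refl (s ^ 2))
    linarith
  have hes0 : 0 ≤ Real.exp s - 1 := by
    have := Real.add_one_le_exp s
    linarith
  set g : ℝ := (Real.exp s - 1) / m with hg
  have hg0 : 0 ≤ g := div_nonneg hes0 hm.le
  have hgθ : g ≤ θ * (1 + s) := by
    rw [hg, hθ, div_mul_eq_mul_div]
    exact div_le_div_of_nonneg_right hes hm.le
  set τ : ℝ := (l.map fun p : ℕ => 1 / (p : ℝ)).sum with hτ
  have hτ0 : 0 ≤ τ := by
    rw [hτ]
    apply List.sum_nonneg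
    intro x hx
    obtain ⟨p, _, rfl⟩ := List.mem_map.1 hx
    positivity
  set NN : ℕ → ℝ := fun n => (l.map fun p => hit H p n).sum with hNN
  have hNN0 : ∀ n, 0 ≤ NN n := by
    intro n
    simp only [hNN]
    apply List.sum_nonneg
    intro x hx
    obtain ⟨p, _, rfl⟩ := List.mem_map.1 hx
    exact hit_nonneg _ _ _
  set W : ℝ := ∑ n ∈ range N, w n with hW
  have hW0 : 0 ≤ W := sum_nonneg fun n _ => hw0 n
  have hwN : Function.Periodic w N := by
    intro n
    simp only [hwdef]
    rw [hw, hw]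
    congr 1
    exact sum_congr rfl fun i hi => hfN i hi n
  rcases hW0.eq_or_lt with hWz | hWpos
  · have h1 : ∀ n ∈ range N, w n = 0 := (sum_eq_zero_iff_of_nonneg fun n _ => hw0 n).1 hWz.symm
    have h1' : ∀ n ∈ range N, |w₀ n| = 0 := h1
    rw [sum_congr rfl fun n hn => by rw [h1' n hn, zero_mul], sum_const_zero, ← hWz, mul_zero]
  set G : ℝ := ∑ n ∈ range N, w n * Real.exp (θ * NN n) with hG
  have hGW : W ≤ G := by
    rw [hW, hG]
    refine sum_le_sum fun n _ => le_mul_of_one_le_right (hw0 n) ?_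
    exact Real.one_le_exp (mul_nonneg hθ0.le (hNN0 n))
  have hGpos : 0 < G := by linarith
  set c : ℝ := Real.log (G / W) with hc
  have hcG : Real.exp c * W = G := by
    rw [hc, Real.exp_log (by positivity)]
    field_simp
  set κ : ℝ := r * (1 + s) with hκ
  have hκ0 : 0 ≤ κ := by positivity
  have hκ1 : κ ≤ 5 * η / 32 := by
    rw [hκ, hr, hs]
    exact ax_k hη0 hη1
  -- extrapolation
  obtain ⟨ρ, cc, hρ, hΛ, hext⟩ := extrap D r hr0 hr1
  have hwle : ∀ n, w n ≤ ∑ j ∈ range (D + 1), |cc j| * Tt M K (ρ j) l w n := by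
    intro n
    have h1 : ∀ i ∈ I, ∃ P : Polynomial ℝ, P.natDegree ≤ D ∧ ∀ ρ : ℝ, Tt M K ρ l (f i) n = P.eval ρ := by
      intro i hi
      obtain ⟨P, hP1, hP2⟩ := poly (M := M) (K := K) (T i) (f i) l hKp (hfM i hi) n
      exact ⟨P, hP1.trans (hdeg i hi), hP2⟩
    choose! P hP1 hP2 using h1
    have h2 : ∀ ρ : ℝ, Tt M K ρ l w₀ n = (∑ i ∈ I, P i).eval ρ := by
      intro ρ
      have h3 : w₀ = fun n => ∑ i ∈ I, f i n := funext hw
      rw [h3, Tt_sum, Polynomial.eval_finset_sum]
      exact sum_congr rfl fun i hi => hP2 i hi ρ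
    have h3 := hext (∑ i ∈ I, P i) (Polynomial.natDegree_sum_le_of_forall_le _ _ hP1)
    have h4 : w₀ n = ∑ j ∈ range (D + 1), cc j * Tt M K (ρ j) l w₀ n := by
      conv_lhs => rw [← Tt_one (M := M) (K := K) (F := w₀) l]
      rw [h2 1, h3]
      exact sum_congr rfl fun j _ => by rw [h2]
    show |w₀ n| ≤ _
    rw [h4]
    refine (abs_sum_le_sum_abs _ _).trans (sum_le_sum fun j hj => ?_)
    have h5 := hρ j hj
    rw [abs_mul]
    exact mul_le_mul_of_nonneg_left (Tt_abs h5.1 (h5.2.trans hr1) (fun n => le_rfl) l n)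
      (abs_nonneg _)
  -- the moments
  set μ : ℕ → ℝ := fun p => H.card / p * g with hμ
  have hμ0 : ∀ p, 0 ≤ μ p := fun p => by simp only [hμ]; positivity
  have hAv : ∀ p ∈ l, ∀ n, Av (M p) (K p) (fun n => Real.exp (θ * hit H p n)) n ≤ 1 + μ p := by
    intro p hp n
    have hpF := List.mem_toFinset.2 hp
    obtain ⟨k, hk, hKk⟩ := hD.pow p hpF
    have hK0 := hKp p hp
    have hKr : (0 : ℝ) < K p := by exact_mod_cast hK0
    have h1 := Av_hit H (hD.pr p hpF) hKk hk (hD.ndvd p hpF) n
    have h2 : Av (M p) (K p) (fun n => Real.exp (θ * hit H p n)) n ≤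
        1 + Av (M p) (K p) (hit H p) n * g := by
      unfold Av
      have h3 : ∀ t ∈ range (K p), Real.exp (θ * hit H p (n + M p * t)) ≤
          1 + hit H p (n + M p * t) * g := by
        intro t _
        have := exp_chord (θ := θ) hm (hit_nonneg H p (n + M p * t)) (hM p hp _)
        rwa [hθm] at this
      have h4 := sum_le_sum h3
      rw [sum_add_distrib, sum_const, card_range, nsmul_eq_mul, mul_one, ← sum_mul] at h4
      have h5 := div_le_div_of_nonneg_right h4 hKr.le
      refine h5.trans (le_of_eq ?_)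
      field_simp
    rw [h1] at h2
    exact h2
  have hmom : ∀ j ∈ range (D + 1), ∑ n ∈ range N, Tt M K (ρ j) l w n * Real.exp (θ * NN n) ≤
      Real.exp (τ * H.card * g) * (Real.exp (κ * c) * W) := by
    intro j hj
    obtain ⟨hρ0, hρr⟩ := hρ j hj
    have h1 := moment (N := N) (M := M) (K := K) (θ := θ) hρ0 (hρr.trans hr1) (fun p n => hit H p n) μ l
      hnd (fun p hp => ⟨hMK p hp, hKp p hp⟩) (fun p hp => hit_per H (by
        rw [← hMK p hp]
        obtain ⟨k, hk, hKk⟩ := hD.pow p (List.mem_toFinset.2 hp)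
        rw [hKk]
        exact (dvd_pow_self p (by omega)).mul_left _))
      (fun p hp q hq hqp => hit_per H (hD.dvd q (List.mem_toFinset.2 hq) p (List.mem_toFinset.2 hp)
        (Ne.symm hqp))) hAv (fun p _ => hμ0 p) w hw0 hwN
    refine h1.trans ?_
    have h2 : ∀ n ∈ range N, w n * Real.exp ((l.map fun p => ρ j * (Real.exp (θ * hit H p n) - 1) + μ p).sum) ≤
        Real.exp (τ * H.card * g) * (Real.exp (κ * c) * (κ * (w n * Real.exp (θ * NN n)) * Real.exp (-c) +
          (1 - κ) * w n)) := by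
      intro n _
      have h3 : (l.map fun p => ρ j * (Real.exp (θ * hit H p n) - 1) + μ p).sum ≤
          κ * (θ * NN n) + τ * H.card * g := by
        rw [List.sum_map_add]
        have h4 : (l.map fun p => ρ j * (Real.exp (θ * hit H p n) - 1)).sum ≤ κ * (θ * NN n) := by
          have h5 : (l.map fun p => ρ j * (Real.exp (θ * hit H p n) - 1)).sum ≤
              (l.map fun p => κ * θ * hit H p n).sum := by
            refine List.sum_le_sum fun p hp => ?_
            have h6 := exp_chord (θ := θ) hm (hit_nonneg H p n) (hM p hp n)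
            rw [hθm] at h6
            have h7 : Real.exp (θ * hit H p n) - 1 ≤ hit H p n * g := by linarith
            have h8 : 0 ≤ hit H p n * g := mul_nonneg (hit_nonneg _ _ _) hg0
            calc ρ j * (Real.exp (θ * hit H p n) - 1) ≤ ρ j * (hit H p n * g) :=
                  mul_le_mul_of_nonneg_left h7 hρ0
              _ ≤ r * (hit H p n * g) := mul_le_mul_of_nonneg_right hρr h8
              _ ≤ r * (hit H p n * (θ * (1 + s))) := by
                refine mul_le_mul_of_nonneg_left ?_ hr0.le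
                exact mul_le_mul_of_nonneg_left hgθ (hit_nonneg _ _ _)
              _ = κ * θ * hit H p n := by rw [hκ]; ring
          refine h5.trans (le_of_eq ?_)
          rw [List.sum_map_mul_left]
          simp only [hNN]
          ring
        have h5 : (l.map fun p => μ p).sum = τ * H.card * g := by
          have h6 : (l.map fun p => μ p) = (l.map fun p : ℕ => (H.card * g) * (1 / (p : ℝ))) :=
            List.map_congr_left fun p _ => by simp only [hμ]; ring
          rw [h6, List.sum_map_mul_left, hτ]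
          ring
        rw [h5]
        linarith
      have h4 : Real.exp (κ * (θ * NN n)) ≤
          Real.exp (κ * c) * (κ * Real.exp (θ * NN n) * Real.exp (-c) + (1 - κ)) := by
        have h5 := exp_mix (y := θ * NN n - c) hκ0 (by linarith : κ ≤ 1)
        have e1 : κ * (θ * NN n) = κ * c + κ * (θ * NN n - c) := by ring
        rw [e1, Real.exp_add]
        refine mul_le_mul_of_nonneg_left ?_ (Real.exp_pos _).le
        refine h5.trans (le_of_eq ?_)
        rw [sub_eq_add_neg, Real.exp_add]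
        ring
      calc w n * Real.exp ((l.map fun p => ρ j * (Real.exp (θ * hit H p n) - 1) + μ p).sum)
          ≤ w n * Real.exp (κ * (θ * NN n) + τ * H.card * g) :=
            mul_le_mul_of_nonneg_left (Real.exp_le_exp.2 h3) (hw0 n)
        _ = Real.exp (τ * H.card * g) * (w n * Real.exp (κ * (θ * NN n))) := by
            rw [Real.exp_add]; ring
        _ ≤ Real.exp (τ * H.card * g) * (w n * (Real.exp (κ * c) *
            (κ * Real.exp (θ * NN n) * Real.exp (-c) + (1 - κ)))) := by
            refine mul_le_mul_of_nonneg_left ?_ (Real.exp_pos _).le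
            exact mul_le_mul_of_nonneg_left h4 (hw0 n)
        _ = _ := by ring
    refine (sum_le_sum h2).trans (le_of_eq ?_)
    rw [← mul_sum, ← mul_sum, sum_add_distrib, ← sum_mul, ← mul_sum, ← mul_sum, ← hG, ← hW, ← hcG]
    have h3 : Real.exp c * Real.exp (-c) = 1 := by rw [← Real.exp_add, add_neg_cancel, Real.exp_zero]
    have h4 : κ * (Real.exp c * W) * Real.exp (-c) = κ * W * (Real.exp c * Real.exp (-c)) := by ring
    rw [h4, h3]
    ring
  have hGle : G ≤ Real.exp (1 + D * Real.log (6 / r)) *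
      (Real.exp (τ * H.card * g) * (Real.exp (κ * c) * W)) := by
    have h1 : G ≤ ∑ j ∈ range (D + 1), |cc j| *
        ∑ n ∈ range N, Tt M K (ρ j) l w n * Real.exp (θ * NN n) := by
      have h2 : ∀ n ∈ range N, w n * Real.exp (θ * NN n) ≤
          ∑ j ∈ range (D + 1), |cc j| * (Tt M K (ρ j) l w n * Real.exp (θ * NN n)) := by
        intro n _
        have h3 := mul_le_mul_of_nonneg_right (hwle n) (Real.exp_pos (θ * NN n)).le
        refine h3.trans (le_of_eq ?_)
        rw [sum_mul]
        exact sum_congr rfl fun j _ => by ring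
      refine (sum_le_sum h2).trans (le_of_eq ?_)
      rw [sum_comm]
      exact sum_congr rfl fun j _ => by rw [mul_sum]
    refine h1.trans ?_
    have h2 : ∑ j ∈ range (D + 1), |cc j| *
        ∑ n ∈ range N, Tt M K (ρ j) l w n * Real.exp (θ * NN n) ≤
        ∑ j ∈ range (D + 1), |cc j| * (Real.exp (τ * H.card * g) * (Real.exp (κ * c) * W)) :=
      sum_le_sum fun j hj => mul_le_mul_of_nonneg_left (hmom j hj) (abs_nonneg _)
    refine h2.trans ?_
    rw [← sum_mul]
    exact mul_le_mul_of_nonneg_right hΛ (by positivity)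
  have hcle : c ≤ (1 + D * Real.log (6 / r)) + τ * H.card * g + κ * c := by
    rw [← hcG] at hGle
    have h1 : Real.exp (1 + D * Real.log (6 / r)) *
      (Real.exp (τ * H.card * g) * (Real.exp (κ * c) * W)) =
      Real.exp ((1 + D * Real.log (6 / r)) + τ * H.card * g + κ * c) * W := by
      rw [Real.exp_add (1 + D * Real.log (6 / r) + τ * H.card * g),
        Real.exp_add (1 + D * Real.log (6 / r))]
      ring
    rw [h1] at hGle
    exact Real.exp_le_exp.1 (le_of_mul_le_mul_right hGle hWpos)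
  -- conclusion
  have hlog : 6 / r = 48 / η := by
    rw [hr]
    field_simp
    norm_num
  rw [hlog] at hcle
  set Λ' : ℝ := 1 + D * Real.log (48 / η) with hΛ'
  have hΛ0 : 0 ≤ Λ' := by
    have : 0 ≤ Real.log (48 / η) := Real.log_nonneg (by rw [le_div_iff₀ hη0]; linarith)
    positivity
  have hB0 : 0 ≤ τ * H.card := by positivity
  have h1 : c * (1 - κ) ≤ Λ' + τ * H.card * (θ * (1 + s)) := by
    have := mul_le_mul_of_nonneg_left hgθ hB0
    linarith
  have hκ2 : 0 < 1 - κ := by linarith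
  have h2 : c ≤ 2 * Λ' + (1 + η) * (θ * (τ * H.card)) := by
    have h3 : c ≤ (Λ' + τ * H.card * (θ * (1 + s))) / (1 - κ) := by
      rwa [le_div_iff₀ hκ2]
    refine h3.trans ?_
    rw [div_le_iff₀ hκ2]
    have h4 : 1 + s ≤ (1 + η) * (1 - κ) := ax_h hη0 hη1 hκ1
    exact ax_fin h4 (by positivity) (ax_L hΛ0 (by linarith)) (by ring)
  have hθη : η / (4 * m) = θ := by
    rw [hθ, hs]
    field_simp
  rw [hθη]
  rw [← hcG] at hG
  rw [← hG]
  exact mul_le_mul_of_nonneg_right (Real.exp_le_exp.2 h2) hW0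

end Pool.Agent.R526.NW
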