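import Pool.Agent.Y835.SB.Rec

/-!
Noise operators on periodic functions.
-/

set_option autoImplicit false

namespace Pool.Agent.R526.NW

open Finset Pool.Agent.Y835.SB

/-- the noise operator at one prime -/
noncomputable def Rr (M K : ℕ → ℕ) (ρ : ℝ) (p : ℕ) (F : ℕ → ℝ) : ℕ → ℝ :=
  fun n => ρ * F n + (1 - ρ) * Av (M p) (K p) F n

/-- the noise operator at the primes of a list -/
noncomputable def Tt (M K : ℕ → ℕ) (ρ : ℝ) : List ℕ → (ℕ → ℝ) → (ℕ → ℝ)
  | [], F => F
  | p :: l, F => Rr M K ρ p (Tt M K ρ l F)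

theorem Av_nonneg {M K : ℕ} {F : ℕ → ℝ} (hF : ∀ n, 0 ≤ F n) (n : ℕ) : 0 ≤ Av M K F n := by
  unfold Av
  exact div_nonneg (sum_nonneg fun _ _ => hF _) (Nat.cast_nonneg _)

theorem Rr_per {M K : ℕ → ℕ} {ρ : ℝ} {p L : ℕ} {F : ℕ → ℝ} (hF : Function.Periodic F L) :
    Function.Periodic (Rr M K ρ p F) L := by
  intro n
  unfold Rr
  rw [hF n, Av_per (M := M p) (K := K p) hF n]

theorem Tt_per {M K : ℕ → ℕ} {ρ : ℝ} {L : ℕ} {F : ℕ → ℝ} (hF : Function.Periodic F L) :
    ∀ l : List ℕ, Function.Periodic (Tt M K ρ l F) L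
  | [] => hF
  | _ :: l => Rr_per (Tt_per hF l)

theorem Tt_nonneg {M K : ℕ → ℕ} {ρ : ℝ} (h0 : 0 ≤ ρ) (h1 : ρ ≤ 1) {F : ℕ → ℝ}
    (hF : ∀ n, 0 ≤ F n) : ∀ (l : List ℕ) (n : ℕ), 0 ≤ Tt M K ρ l F n
  | [] => hF
  | p :: l => fun n => by
    show 0 ≤ Rr M K ρ p (Tt M K ρ l F) n
    unfold Rr
    exact add_nonneg (mul_nonneg h0 (Tt_nonneg h0 h1 hF l n))
      (mul_nonneg (by linarith) (Av_nonneg (Tt_nonneg h0 h1 hF l) n))

theorem Tt_one {M K : ℕ → ℕ} {F : ℕ → ℝ} : ∀ (l : List ℕ), Tt M K 1 l F = F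
  | [] => rfl
  | p :: l => by
    show Rr M K 1 p (Tt M K 1 l F) = F
    rw [Tt_one l]
    funext n
    unfold Rr
    ring

theorem Tt_mul {M K : ℕ → ℕ} {ρ : ℝ} {F k : ℕ → ℝ} : ∀ (l : List ℕ),
    (∀ p ∈ l, Function.Periodic k (M p)) → ∀ n,
    Tt M K ρ l (fun n => F n * k n) n = Tt M K ρ l F n * k n
  | [] => fun _ _ => rfl
  | p :: l => fun h n => by
    show Rr M K ρ p (Tt M K ρ l (fun n => F n * k n)) n = Rr M K ρ p (Tt M K ρ l F) n * k n
    have h1 : Tt M K ρ l (fun n => F n * k n) = fun n => Tt M K ρ l F n * k n := by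
      funext n
      exact Tt_mul l (fun q hq => h q (List.mem_cons_of_mem p hq)) n
    rw [h1]
    unfold Rr
    rw [Av_mul (h p List.mem_cons_self)]
    ring

theorem Tt_sum {M K : ℕ → ℕ} {ρ : ℝ} {ι : Type} (I : Finset ι) (f : ι → ℕ → ℝ) : ∀ (l : List ℕ) (n : ℕ),
    Tt M K ρ l (fun n => ∑ i ∈ I, f i n) n = ∑ i ∈ I, Tt M K ρ l (f i) n
  | [] => fun _ => rfl
  | p :: l => fun n => by
    show Rr M K ρ p (Tt M K ρ l (fun n => ∑ i ∈ I, f i n)) n = ∑ i ∈ I, Rr M K ρ p (Tt M K ρ l (f i)) n
    have h1 : Tt M K ρ l (fun n => ∑ i ∈ I, f i n) = fun n => ∑ i ∈ I, Tt M K ρ l (f i) n := by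
      funext n
      exact Tt_sum I f l n
    rw [h1]
    unfold Rr Av
    rw [sum_add_distrib, ← mul_sum, ← mul_sum, ← sum_div]
    have h2 : ∑ t ∈ range (K p), ∑ i ∈ I, Tt M K ρ l (f i) (n + M p * t) =
        ∑ i ∈ I, ∑ t ∈ range (K p), Tt M K ρ l (f i) (n + M p * t) := sum_comm
    rw [← h2]

/-- self-adjointness of the averages -/
theorem adj {N M K : ℕ} (hN : M * K = N) (hK : 0 < K) {F G : ℕ → ℝ} (hF : Function.Periodic F N)
    (hG : Function.Periodic G N) :
    ∑ n ∈ range N, Av M K G n * F n = ∑ n ∈ range N, G n * Av M K F n := by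
  have hAF : Function.Periodic (Av M K F) M := Av_perM (hN ▸ hF)
  have hAG : Function.Periodic (Av M K G) M := Av_perM (hN ▸ hG)
  have hAFN : Function.Periodic (Av M K F) N := Av_per hF
  have hAGN : Function.Periodic (Av M K G) N := Av_per hG
  have h1 : ∑ n ∈ range N, G n * Av M K F n = ∑ n ∈ range N, Av M K G n * Av M K F n := by
    rw [← sum_Av (M := M) hK (F := fun n => G n * Av M K F n) (fun n => by simp only [hG n, hAFN n])]
    exact sum_congr rfl fun n _ => Av_mul hAF n
  have h2 : ∑ n ∈ range N, F n * Av M K G n = ∑ n ∈ range N, Av M K F n * Av M K G n := by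
    rw [← sum_Av (M := M) hK (F := fun n => F n * Av M K G n) (fun n => by simp only [hF n, hAGN n])]
    exact sum_congr rfl fun n _ => Av_mul hAG n
  rw [h1]
  have h3 : ∑ n ∈ range N, Av M K G n * F n = ∑ n ∈ range N, F n * Av M K G n :=
    sum_congr rfl fun n _ => mul_comm _ _
  rw [h3, h2]
  exact sum_congr rfl fun n _ => mul_comm _ _

/-- the exponential moment of the hits under the noise operator -/
theorem moment {N : ℕ} {M K : ℕ → ℕ} {θ ρ : ℝ} (h0 : 0 ≤ ρ) (h1 : ρ ≤ 1) (cnt : ℕ → ℕ → ℝ)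
    (μ : ℕ → ℝ) : ∀ l : List ℕ, l.Nodup → (∀ p ∈ l, M p * K p = N ∧ 0 < K p) →
    (∀ p ∈ l, Function.Periodic (cnt p) N) →
    (∀ p ∈ l, ∀ q ∈ l, q ≠ p → Function.Periodic (cnt p) (M q)) →
    (∀ p ∈ l, ∀ n, Av (M p) (K p) (fun n => Real.exp (θ * cnt p n)) n ≤ 1 + μ p) →
    (∀ p ∈ l, 0 ≤ μ p) → ∀ w : ℕ → ℝ, (∀ n, 0 ≤ w n) → Function.Periodic w N →
    ∑ n ∈ range N, Tt M K ρ l w n * Real.exp (θ * (l.map fun p => cnt p n).sum) ≤
      ∑ n ∈ range N, w n *
        Real.exp ((l.map fun p => ρ * (Real.exp (θ * cnt p n) - 1) + μ p).sum) := by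
  intro l
  induction l with
  | nil =>
    intro _ _ _ _ _ _ w _ _
    simp [Tt]
  | cons p l ih =>
    intro hnd hMK hcN hcM hAv hμ w hw hwN
    rw [List.nodup_cons] at hnd
    obtain ⟨hMKp, hK⟩ := hMK p List.mem_cons_self
    set G : ℕ → ℝ := Tt M K ρ l w with hG
    set E : ℕ → ℝ := fun n => Real.exp (θ * (l.map fun q => cnt q n).sum) with hE
    set e : ℕ → ℝ := fun n => Real.exp (θ * cnt p n) with he
    have hcp : ∀ q ∈ l, Function.Periodic (cnt q) (M p) := fun q hq =>
      hcM q (List.mem_cons_of_mem p hq) p List.mem_cons_self (fun h => hnd.1 (h ▸ hq))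
    have hEM : Function.Periodic E (M p) := by
      intro n
      simp only [hE]
      have : (l.map fun q => cnt q (n + M p)) = (l.map fun q => cnt q n) :=
        List.map_congr_left fun q hq => hcp q hq n
      rw [this]
    have hEN : Function.Periodic E N := by
      intro n
      simp only [hE]
      have : (l.map fun q => cnt q (n + N)) = (l.map fun q => cnt q n) :=
        List.map_congr_left fun q hq => hcN q (List.mem_cons_of_mem p hq) n
      rw [this]
    have heN : Function.Periodic e N := by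
      intro n
      simp only [he]
      rw [hcN p List.mem_cons_self n]
    have hGN : Function.Periodic G N := Tt_per hwN l
    have hG0 : ∀ n, 0 ≤ G n := Tt_nonneg h0 h1 hw l
    have hE0 : ∀ n, 0 < E n := fun n => Real.exp_pos _
    set k : ℕ → ℝ := fun n => Real.exp (ρ * (e n - 1) + μ p) with hk
    have hkM : ∀ q ∈ l, Function.Periodic k (M q) := by
      intro q hq n
      simp only [hk, he]
      rw [hcM p List.mem_cons_self q (List.mem_cons_of_mem p hq) (fun h => hnd.1 (h ▸ hq)) n]
    have hkN : Function.Periodic k N := by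
      intro n
      simp only [hk]
      rw [heN n]
    have e1 : ∑ n ∈ range N, Tt M K ρ (p :: l) w n *
        Real.exp (θ * ((p :: l).map fun q => cnt q n).sum) =
        ∑ n ∈ range N, G n * E n * (ρ * e n + (1 - ρ) * Av (M p) (K p) e n) := by
      have a1 : ∀ n, Tt M K ρ (p :: l) w n * Real.exp (θ * ((p :: l).map fun q => cnt q n).sum) =
          ρ * (G n * (e n * E n)) + (1 - ρ) * (Av (M p) (K p) G n * (e n * E n)) := by
        intro n
        have b1 : Tt M K ρ (p :: l) w n = ρ * G n + (1 - ρ) * Av (M p) (K p) G n := rfl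
        have b2 : Real.exp (θ * ((p :: l).map fun q => cnt q n).sum) = e n * E n := by
          simp only [he, hE]
          rw [List.map_cons, List.sum_cons, mul_add, Real.exp_add]
        rw [b1, b2]
        ring
      rw [sum_congr rfl fun n _ => a1 n, sum_add_distrib, ← mul_sum, ← mul_sum,
        adj hMKp hK (F := fun n => e n * E n) (fun n => by simp only [heN n, hEN n]) hGN, mul_sum,
        mul_sum, ← sum_add_distrib]
      refine sum_congr rfl fun n _ => ?_
      rw [Av_mul hEM]
      ring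
    rw [e1]
    have e2 : ∑ n ∈ range N, G n * E n * (ρ * e n + (1 - ρ) * Av (M p) (K p) e n) ≤
        ∑ n ∈ range N, Tt M K ρ l (fun n => w n * k n) n * E n := by
      refine sum_le_sum fun n _ => ?_
      rw [Tt_mul l hkM n]
      have b1 := hAv p List.mem_cons_self n
      have b2 := hμ p List.mem_cons_self
      have b3 : ρ * e n + (1 - ρ) * Av (M p) (K p) e n ≤ k n := by
        have c1 : (1 - ρ) * Av (M p) (K p) e n ≤ (1 - ρ) * (1 + μ p) :=
          mul_le_mul_of_nonneg_left b1 (by linarith)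
        have c2 := Real.add_one_le_exp (ρ * (e n - 1) + μ p)
        simp only [hk]
        nlinarith
      have b4 : 0 ≤ G n * E n := mul_nonneg (hG0 n) (hE0 n).le
      calc G n * E n * (ρ * e n + (1 - ρ) * Av (M p) (K p) e n) ≤ G n * E n * k n :=
            mul_le_mul_of_nonneg_left b3 b4
        _ = Tt M K ρ l w n * k n * E n := by rw [hG]; ring
    refine e2.trans ?_
    have e3 := ih hnd.2 (fun q hq => hMK q (List.mem_cons_of_mem p hq))
      (fun q hq => hcN q (List.mem_cons_of_mem p hq))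
      (fun q hq q' hq' => hcM q (List.mem_cons_of_mem p hq) q' (List.mem_cons_of_mem p hq'))
      (fun q hq => hAv q (List.mem_cons_of_mem p hq))
      (fun q hq => hμ q (List.mem_cons_of_mem p hq)) (fun n => w n * k n)
      (fun n => mul_nonneg (hw n) (Real.exp_pos _).le) (fun n => by simp only [hwN n, hkN n])
    refine e3.trans (le_of_eq ?_)
    refine sum_congr rfl fun n _ => ?_
    rw [List.map_cons, List.sum_cons, Real.exp_add]
    simp only [hk, he]
    ring

/-- the noise operator is a polynomial in `ρ` -/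
theorem poly {M K : ℕ → ℕ} (T : Finset ℕ) (f : ℕ → ℝ) : ∀ l : List ℕ, (∀ p ∈ l, 0 < K p) →
    (∀ p ∈ l, p ∉ T → Function.Periodic f (M p)) → ∀ n, ∃ P : Polynomial ℝ,
      P.natDegree ≤ (l.filter (fun p => p ∈ T)).length ∧ ∀ ρ : ℝ, Tt M K ρ l f n = P.eval ρ := by
  intro l
  induction l with
  | nil =>
    intro _ _ n
    refine ⟨Polynomial.C (f n), by simp, fun ρ => ?_⟩
    rw [Polynomial.eval_C]
    rfl
  | cons p l ih =>
    intro hK hf n
    have ih' := ih (fun q hq => hK q (List.mem_cons_of_mem p hq))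
      (fun q hq => hf q (List.mem_cons_of_mem p hq))
    by_cases hp : p ∈ T
    · choose P hP1 hP2 using ih'
      refine ⟨Polynomial.X * P n + (1 - Polynomial.X) *
        (Polynomial.C (K p : ℝ)⁻¹ * ∑ t ∈ range (K p), P (n + M p * t)), ?_, fun ρ => ?_⟩
      · have h1 : ((p :: l).filter (fun p => p ∈ T)).length =
            (l.filter (fun p => p ∈ T)).length + 1 := by
          rw [List.filter_cons_of_pos (by simpa using hp), List.length_cons]
        rw [h1]
        set D := (l.filter (fun p => p ∈ T)).length with hD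
        have h2 : (∑ t ∈ range (K p), P (n + M p * t)).natDegree ≤ D :=
          Polynomial.natDegree_sum_le_of_forall_le _ _ fun t _ => hP1 _
        have h3 : (Polynomial.X * P n).natDegree ≤ D + 1 := by
          refine Polynomial.natDegree_mul_le.trans ?_
          have := hP1 n
          have h4 : (Polynomial.X : Polynomial ℝ).natDegree ≤ 1 := Polynomial.natDegree_X_le
          omega
        have h4 : ((1 - Polynomial.X) *
            (Polynomial.C (K p : ℝ)⁻¹ * ∑ t ∈ range (K p), P (n + M p * t))).natDegree ≤ D + 1 := by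
          refine Polynomial.natDegree_mul_le.trans ?_
          have h5 : (1 - Polynomial.X : Polynomial ℝ).natDegree ≤ 1 := by
            refine (Polynomial.natDegree_sub_le _ _).trans ?_
            rw [Polynomial.natDegree_one]
            exact max_le (by norm_num) Polynomial.natDegree_X_le
          have h6 : (Polynomial.C (K p : ℝ)⁻¹ * ∑ t ∈ range (K p), P (n + M p * t)).natDegree ≤ D :=
            (Polynomial.natDegree_C_mul_le _ _).trans h2
          omega
        exact (Polynomial.natDegree_add_le _ _).trans (max_le h3 h4)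
      · show Rr M K ρ p (Tt M K ρ l f) n = _
        unfold Rr Av
        rw [Polynomial.eval_add, Polynomial.eval_mul, Polynomial.eval_X, Polynomial.eval_mul,
          Polynomial.eval_sub, Polynomial.eval_one, Polynomial.eval_X, Polynomial.eval_mul,
          Polynomial.eval_C, Polynomial.eval_finset_sum, hP2,
          sum_congr rfl fun t _ => hP2 (n + M p * t) ρ]
        rw [div_eq_inv_mul]
    · obtain ⟨P, hP1, hP2⟩ := ih' n
      refine ⟨P, ?_, fun ρ => ?_⟩
      · rwa [List.filter_cons_of_neg (by simpa using hp)]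
      · rw [← hP2 ρ]
        show Rr M K ρ p (Tt M K ρ l f) n = _
        have h1 : Function.Periodic (Tt M K ρ l f) (M p) := Tt_per (hf p List.mem_cons_self hp) l
        unfold Rr
        rw [Av_of_per (hK p List.mem_cons_self) h1]
        ring

end Pool.Agent.R526.NW
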