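import Pool.Agent.R526.NW.PRec

/-!
Concentration: a function of level `X` has almost all its `L¹` mass where the number of survivors is
almost the expected one.
-/

set_option autoImplicit false

namespace Pool.Agent.R526.NW

open Finset Pool.Agent.Y835.SB

/-- `∏ (1 - 1/p) ≥ c log y / log z` over primes of `(y, z]` -/
theorem prod_ge2 : ∃ c : ℝ, 0 < c ∧ ∀ y z : ℕ, 2 ≤ y → y ≤ z → ∀ P : Finset ℕ,
    (∀ p ∈ P, p.Prime ∧ y < p ∧ p ≤ z) → c * (Real.log y / Real.log z) ≤
      ∏ p ∈ P, (1 - 1 / (p : ℝ)) := by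
  obtain ⟨C, hC0, hC⟩ := Pool.Agent.Helper923.HMertens.mertens_ratio
  have hl2 : 0 < Real.log 2 := Real.log_pos (by norm_num)
  refine ⟨Real.exp (-(C / Real.log 2 + 1)), Real.exp_pos _, fun y z hy hyz P hP => ?_⟩
  have hy1 : (1 : ℝ) < y := by exact_mod_cast (by omega : 1 < y)
  have hz1 : (1 : ℝ) < z := by exact_mod_cast (by omega : 1 < z)
  have hly : 0 < Real.log y := Real.log_pos hy1
  have hlz : 0 < Real.log z := Real.log_pos hz1
  have hlyz : Real.log y ≤ Real.log z := Real.log_le_log (by linarith) (by exact_mod_cast hyz)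
  have h0 := hC y z hy hyz
  have hsub : P ⊆ (Ioc y z).filter Nat.Prime := by
    intro p hp
    obtain ⟨h2, h3, h4⟩ := hP p hp
    rw [mem_filter, mem_Ioc]
    exact ⟨⟨h3, h4⟩, h2⟩
  have h3 : ∑ p ∈ P, 1 / (p : ℝ) ≤ Real.log (Real.log z / Real.log y) + C / Real.log 2 := by
    refine (sum_le_sum_of_subset_of_nonneg hsub fun _ _ _ => by positivity).trans ?_
    have h5 := (abs_le.1 h0).2
    have h6 : C / Real.log y ≤ C / Real.log 2 := by
      refine div_le_div_of_nonneg_left hC0 hl2 ?_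
      exact Real.log_le_log (by norm_num) (by exact_mod_cast hy)
    linarith
  have h1 : ∀ p ∈ P, Real.exp (-(1 / (p : ℝ) + 1 / ((p : ℝ) * (p - 1)))) ≤ 1 - 1 / (p : ℝ) := by
    intro p hp
    have hp2 : (2 : ℝ) ≤ p := by exact_mod_cast (hP p hp).1.two_le
    have hp1 : (0 : ℝ) < p - 1 := by linarith
    have hp0 : (0 : ℝ) < p := by linarith
    have e1 : 1 / (p : ℝ) + 1 / ((p : ℝ) * (p - 1)) = 1 / ((p : ℝ) - 1) := by
      field_simp
      ring
    rw [e1, Real.exp_neg]
    have h2 : 1 + 1 / ((p : ℝ) - 1) ≤ Real.exp (1 / ((p : ℝ) - 1)) := by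
      have := Real.add_one_le_exp (1 / ((p : ℝ) - 1))
      linarith
    have h3 : 1 - 1 / (p : ℝ) = (1 + 1 / ((p : ℝ) - 1))⁻¹ := by
      field_simp
      ring
    rw [h3]
    exact inv_anti₀ (by positivity) h2
  have h2 : Real.exp (-(∑ p ∈ P, 1 / (p : ℝ) + ∑ p ∈ P, 1 / ((p : ℝ) * (p - 1)))) ≤
      ∏ p ∈ P, (1 - 1 / (p : ℝ)) := by
    rw [← sum_add_distrib, ← sum_neg_distrib, Real.exp_sum]
    exact prod_le_prod (fun _ _ => (Real.exp_pos _).le) h1
  refine le_trans ?_ h2
  have h4 := sum_tele P fun p hp => (hP p hp).1.two_le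
  have h5 : Real.exp (-(C / Real.log 2 + 1)) * (Real.log y / Real.log z) =
      Real.exp (-(C / Real.log 2 + 1) - Real.log (Real.log z / Real.log y)) := by
    rw [Real.exp_sub, Real.exp_log (by positivity)]
    field_simp
  rw [h5]
  exact Real.exp_le_exp.2 (by linarith)

open Classical in
theorem conc (ε : ℝ) (hε : 0 < ε) (hε1 : ε ≤ 1) : ∃ X₀ : ℕ, ∀ (ι : Type) (X : ℕ), X₀ ≤ X →
    ∀ (P H : Finset ℕ) (m : ℝ), 0 < m → (∀ p ∈ P, p.Prime ∧ p ≤ X) →
    (∀ p ∈ P, ∀ n, hit H p n ≤ m) →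
    m * (Real.log X * Real.log (Real.log X) ^ 3) ≤ H.card →
    ∀ (I : Finset ι) (d : ι → ℕ) (f : ι → ℕ → ℝ), (∀ x ∈ I, 0 < d x ∧
      ∏ p ∈ P.filter (fun p => p ∣ d x), p ≤ X ∧ Function.Periodic (f x) (d x)) →
    ∀ w : ℕ → ℝ, (∀ n, w n = ∑ x ∈ I, f x n) →
    ∀ N : ℕ, 0 < N → (∀ p ∈ P, p ∣ N) → (∀ x ∈ I, d x ∣ N) →
    ∑ n ∈ range N, |w n| * (if ((surv P H n).card : ℝ) <
      (1 - ε) * ((∏ p ∈ P, (1 - 1 / (p : ℝ))) * H.card) then (1 : ℝ) else 0) ≤
      ε * ∑ n ∈ range N, |w n| := by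
  obtain ⟨C, hC, HI⟩ := sum_inv_le
  obtain ⟨cM, hcM, HM⟩ := prod_ge2
  set A' : ℝ := 64 ^ 3 * 16 / (cM * ε ^ 3) with hA'
  have hA'0 : 0 < A' := by positivity
  set B : ℝ := 3072 / ε ^ 2 with hB
  have hε2 : ε ^ 2 ≤ 1 := pow_le_one₀ hε.le hε1
  have hε22 : ε ^ 2 ≤ ε := ax_sq hε hε1
  have hB1 : 1 ≤ B := by rw [hB, le_div_iff₀ (by positivity)]; linarith
  obtain ⟨l₀, hl₀, hbig⟩ := ev_big 1 C (4 * A') B one_pos (by positivity) hC hB1
  obtain ⟨X₁, hX₁⟩ : ∃ X₁ : ℕ, ∀ X : ℕ, X₁ ≤ X → max l₀ (68 * (1 + C) / ε) ≤ Real.log (Real.log X) := by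
    have t1 : Filter.Tendsto (fun X : ℕ => Real.log (Real.log (X : ℝ))) Filter.atTop Filter.atTop :=
      Real.tendsto_log_atTop.comp (Real.tendsto_log_atTop.comp tendsto_natCast_atTop_atTop)
    exact Filter.eventually_atTop.1 (t1.eventually_ge_atTop _)
  refine ⟨max X₁ 3, fun ι X hX P H m hm hPX hH hcard I d f hf w hw N hN hPN hIN => ?_⟩
  have hP : ∀ p ∈ P, p.Prime := fun p hp => (hPX p hp).1
  have hXl := hX₁ X ((le_max_left _ _).trans hX)
  have hX3 : 3 ≤ X := (le_max_right _ _).trans hX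
  have hXr : (3 : ℝ) ≤ X := by exact_mod_cast hX3
  set L := Real.log (X : ℝ) with hL
  set l := Real.log L with hl
  have hll : l₀ ≤ l := (le_max_left _ _).trans hXl
  have hl68 : 68 * (1 + C) / ε ≤ l := (le_max_right _ _).trans hXl
  have hl1 : 1 ≤ l := hl₀.trans hll
  have hl0 : 0 < l := by linarith
  have hL1 : 1 < L := by
    rw [hL, Real.lt_log_iff_exp_lt (by linarith)]
    have := Real.exp_one_lt_d9
    linarith
  have hL0 : 0 < L := by linarith
  have hlL : l ≤ L := (Real.log_le_sub_one_of_pos hL0).trans (by linarith)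
  set Λ : ℝ := l + C with hΛ
  have hΛ1 : 1 ≤ Λ := by rw [hΛ]; linarith
  have hΛ0 : 0 < Λ := by linarith
  set τ : ℝ := ε / (64 * Λ) with hτ
  have hτ0 : 0 < τ := by positivity
  have hτ1 : τ ≤ 1 / 64 := by
    rw [hτ, div_le_div_iff₀ (by positivity) (by norm_num)]
    linarith
  have hτΛ : 16 * τ * Λ = ε / 4 := by
    rw [hτ]
    field_simp
    norm_num
  -- all primes are large
  have hl2' : 2 ≤ l := by
    have h1 : 68 ≤ 68 * (1 + C) / ε := by
      rw [le_div_iff₀ hε]
      linarith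
    linarith
  have hpL : ∀ p ∈ P, L * l ^ 3 ≤ p := by
    intro p hp
    have hpp := hP p hp
    have hp0 : (0 : ℝ) < p := by exact_mod_cast hpp.pos
    have h1 := Av_hit H (K := p) (M := 1) (k := 1) hpp (by rw [pow_one]) le_rfl
      (by rw [Nat.dvd_one]; exact hpp.one_lt.ne') 0
    have h2 : Av 1 p (hit H p) 0 ≤ m := by
      unfold Av
      rw [div_le_iff₀ hp0]
      refine (sum_le_sum fun t _ => hH p hp _).trans (le_of_eq ?_)
      rw [sum_const, card_range, nsmul_eq_mul, mul_comm]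
    rw [h1, div_le_iff₀ hp0] at h2
    have h4 := hcard.trans h2
    exact le_of_mul_le_mul_left h4 hm
  have hpl : ∀ p ∈ P, 1 / (p : ℝ) ≤ τ := by
    intro p hp
    have hp0 : (0 : ℝ) < p := by exact_mod_cast (hP p hp).pos
    have h3 := hpL p hp
    have h4 : 68 * Λ / ε ≤ L * l ^ 3 := by
      have e1 : 68 * Λ / ε ≤ l * l := by
        have e2 : 68 * Λ / ε ≤ 68 * (1 + C) / ε * l := by
          rw [div_mul_eq_mul_div]
          refine div_le_div_of_nonneg_right ?_ hε.le
          rw [hΛ]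
          exact ax_C hl1 hC
        exact e2.trans (mul_le_mul_of_nonneg_right hl68 hl0.le)
      calc 68 * Λ / ε ≤ l * l := e1
        _ ≤ L * l ^ 3 := by
          refine mul_le_mul hlL ?_ hl0.le hL0.le
          calc l = l ^ 1 := (pow_one l).symm
            _ ≤ l ^ 3 := pow_le_pow_right₀ hl1 (by norm_num)
    rw [div_le_iff₀ hp0, hτ, div_mul_eq_mul_div, le_div_iff₀ (by positivity), one_mul]
    have h5 := h4.trans h3
    rw [div_le_iff₀ hε] at h5
    linarith
  set y : ℕ := ⌊L⌋₊ with hy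
  have hyL : (y : ℝ) ≤ L := Nat.floor_le hL0.le
  have hL3 : 3 ≤ L := by
    have : Real.exp 2 ≤ L := by
      rw [← Real.le_log_iff_exp_le hL0]
      exact hl2'
    have h2 := Real.add_one_le_exp (2 : ℝ)
    linarith
  have hy3 : 3 ≤ y := Nat.le_floor (by exact_mod_cast hL3)
  have hlogy : l / 2 ≤ Real.log y := by
    have h1 : L ≤ (y : ℝ) ^ 2 := by
      have h2 := Nat.lt_floor_add_one L
      rw [← hy] at h2
      have h3 : (3 : ℝ) ≤ y := by exact_mod_cast hy3
      exact ax_y h2 h3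
    have h2 := Real.log_le_log hL0 h1
    rw [Real.log_pow] at h2
    push_cast at h2
    linarith
  have hpy : ∀ p ∈ P, y < p := by
    intro p hp
    have h3 := hpL p hp
    have h4 : 1 < l ^ 3 := one_lt_pow₀ (by linarith) (by norm_num)
    have h5 : L < L * l ^ 3 := lt_mul_of_one_lt_right hL0 h4
    have h6 : (y : ℝ) < p := by linarith
    exact_mod_cast h6
  have hyX : y ≤ X := by
    have h1 : L ≤ X := (Real.log_le_sub_one_of_pos (by linarith)).trans (by linarith)
    exact_mod_cast hyL.trans h1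
  have hFtot : ∀ S ⊆ P, ∑ p ∈ S, 1 / (p : ℝ) ≤ Λ := by
    intro S hS
    exact HI X (by omega) S fun p hp => hPX p (hS hp)
  set k : ℕ := ⌊Λ / τ⌋₊ + 1 with hk
  set J : ℕ → Finset ℕ := Jj P τ with hJ
  have hJP : ∀ i, J i ⊆ P := fun i => filter_subset _ _
  have hun : (range k).biUnion J = P := by
    ext p
    rw [mem_biUnion]
    constructor
    · rintro ⟨i, _, hp⟩
      exact hJP i hp
    · intro hp
      refine ⟨⌊Ff P p / τ⌋₊, ?_, mem_filter.2 ⟨hp, rfl⟩⟩
      rw [mem_range, hk, Nat.lt_succ_iff]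
      refine Nat.floor_le_floor ?_
      exact div_le_div_of_nonneg_right (hFtot _ (filter_subset _ _)) hτ0.le
  have hdis : ∀ i j, i ≠ j → Disjoint (J i) (J j) := by
    intro i j hij
    rw [Finset.disjoint_left]
    intro p hp hq
    exact hij ((mem_filter.1 hp).2.symm.trans (mem_filter.1 hq).2)
  set z : ℕ → ℕ := fun i => if h : (J i).Nonempty then (J i).min' h else X with hz
  have hz2 : ∀ i, 2 ≤ z i := by
    intro i
    simp only [hz]
    split_ifs with h
    · exact (hP _ (hJP i ((J i).min'_mem h))).two_le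
    · omega
  have hzX : ∀ i, z i ≤ X := by
    intro i
    simp only [hz]
    split_ifs with h
    · exact (hPX _ (hJP i ((J i).min'_mem h))).2
    · exact le_rfl
  have hlz : ∀ i, 0 < Real.log (z i) := fun i =>
    Real.log_pos (by exact_mod_cast (by have := hz2 i; omega : 1 < z i))
  have hlzX : ∀ i, Real.log (z i) ≤ L := fun i =>
    Real.log_le_log (by exact_mod_cast (by have := hz2 i; omega : 0 < z i)) (by exact_mod_cast hzX i)
  set D : ℕ → ℕ := fun i => ⌊L / Real.log (z i)⌋₊ with hD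
  set t : ℕ → ℝ := fun i => ∑ p ∈ J i, 1 / (p : ℝ) with ht
  have ht0 : ∀ i, 0 ≤ t i := fun i => sum_nonneg fun _ _ => by positivity
  have ht2 : ∀ i, t i ≤ 2 * τ := fun i => Jj_sum hτ0 (fun p hp => hpl p hp) i
  set α : ℕ → ℝ := fun i => 1 - (1 + τ) * t i - τ * τ with hα
  have hx : ∀ i, 0 ≤ (1 + τ) * t i + τ * τ ∧ (1 + τ) * t i + τ * τ ≤ 5 / 2 * τ := by
    exact fun i => ax_x hτ0 hτ1 (ht0 i) (ht2 i)
  have hαe : ∀ i, Real.exp (-((1 + 12 * τ) * t i + 2 * τ ^ 2)) ≤ α i := by
    intro i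
    obtain ⟨h1, h2⟩ := hx i
    have h3 := one_sub_ge (x := (1 + τ) * t i + τ * τ) h1 (by linarith)
    have h4 : α i = 1 - ((1 + τ) * t i + τ * τ) := by simp only [hα]; ring
    rw [h4]
    refine le_trans (Real.exp_le_exp.2 ?_) h3
    have h5 := ax_e hτ0 hτ1 (ht0 i) (ht2 i)
    linarith
  have hα2 : ∀ i, 1 / 2 ≤ α i := by
    intro i
    obtain ⟨h1, h2⟩ := hx i
    simp only [hα]
    linarith
  have hα0 : ∀ i, 0 < α i := fun i => by have := hα2 i; linarith
  have hkτ : (k : ℝ) ≤ Λ / τ + 1 := by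
    rw [hk]
    push_cast
    have h3 : (⌊Λ / τ⌋₊ : ℝ) ≤ Λ / τ := Nat.floor_le (by positivity)
    linarith
  -- the product of the `α`
  have hprodα : ∀ i ≤ k, Real.exp (-(ε / 4)) * ∏ p ∈ (range i).biUnion J, (1 - 1 / (p : ℝ)) ≤
      ∏ j ∈ range i, α j := by
    intro i hi
    have hsub : (range i).biUnion J ⊆ P := by
      intro p hp
      rw [mem_biUnion] at hp
      obtain ⟨j, _, hp⟩ := hp
      exact hJP j hp
    have h1 : ∑ p ∈ (range i).biUnion J, 1 / (p : ℝ) = ∑ j ∈ range i, t j :=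
      sum_biUnion fun a _ b _ hab => hdis a b hab
    have h2 := hFtot _ hsub
    rw [h1] at h2
    have h3 : Real.exp (-((1 + 12 * τ) * ∑ j ∈ range i, t j + i * (2 * τ ^ 2))) ≤
        ∏ j ∈ range i, α j := by
      have e : -((1 + 12 * τ) * ∑ j ∈ range i, t j + i * (2 * τ ^ 2)) =
          ∑ j ∈ range i, -((1 + 12 * τ) * t j + 2 * τ ^ 2) := by
        rw [sum_neg_distrib, sum_add_distrib, ← mul_sum, sum_const, card_range, nsmul_eq_mul]
      rw [e, Real.exp_sum]
      exact prod_le_prod (fun _ _ => (Real.exp_pos _).le) fun j _ => hαe j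
    refine le_trans ?_ h3
    have h4 : ∏ p ∈ (range i).biUnion J, (1 - 1 / (p : ℝ)) ≤
        Real.exp (-∑ p ∈ (range i).biUnion J, 1 / (p : ℝ)) := by
      rw [← sum_neg_distrib, Real.exp_sum]
      refine prod_le_prod (fun p hp => ?_) fun p _ => ?_
      · have : (2 : ℝ) ≤ p := by exact_mod_cast (hP p (hsub hp)).two_le
        rw [sub_nonneg, div_le_one (by linarith)]; linarith
      · have := Real.add_one_le_exp (-(1 / (p : ℝ)))
        linarith
    rw [h1] at h4
    refine (mul_le_mul_of_nonneg_left h4 (Real.exp_pos _).le).trans ?_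
    rw [← Real.exp_add]
    refine Real.exp_le_exp.2 ?_
    have h5 : 12 * τ * ∑ j ∈ range i, t j ≤ 12 * τ * Λ := mul_le_mul_of_nonneg_left h2 (by positivity)
    have h6 : (i : ℝ) * (2 * τ ^ 2) ≤ 4 * τ * Λ := by
      have h7 : (i : ℝ) ≤ Λ / τ + 1 := by
        have : (i : ℝ) ≤ k := by exact_mod_cast hi
        linarith
      have h8 := mul_le_mul_of_nonneg_right h7 (by positivity : 0 ≤ 2 * τ ^ 2)
      have h9 : (Λ / τ + 1) * (2 * τ ^ 2) = 2 * τ * Λ + 2 * τ * τ := by
        field_simp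
      have h10 : 2 * τ * τ ≤ 2 * τ * Λ := mul_le_mul_of_nonneg_left (by linarith) (by positivity)
      linarith
    linarith
  have hexp2 : 1 / 2 ≤ Real.exp (-(ε / 4)) := by
    have := Real.add_one_le_exp (-(ε / 4))
    linarith
  -- lower bound for the partial products
  have hprodz : ∀ i < k, cM * l / (4 * Real.log (z i)) ≤ ∏ j ∈ range i, α j := by
    intro i hi
    have h1 := hprodα i (by omega)
    have hyz : y ≤ z i := by
      simp only [hz]
      split_ifs with h
      · exact (hpy _ (hJP i ((J i).min'_mem h))).le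
      · exact hyX
    have h2 := HM y (z i) (by omega) hyz ((range i).biUnion J) fun p hp => by
      rw [mem_biUnion] at hp
      obtain ⟨j, hj, hp⟩ := hp
      rw [mem_range] at hj
      refine ⟨hP p (hJP j hp), hpy p (hJP j hp), ?_⟩
      simp only [hz]
      split_ifs with h
      · have hmem := (J i).min'_mem h
        by_contra hlt
        push_neg at hlt
        have h3 : Ff P ((J i).min' h) ≤ Ff P p := Ff_mono P hlt.le
        have h4 := (mem_filter.1 hp).2
        have h5 := (mem_filter.1 hmem).2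
        have h6 : ⌊Ff P ((J i).min' h) / τ⌋₊ ≤ ⌊Ff P p / τ⌋₊ :=
          Nat.floor_le_floor (div_le_div_of_nonneg_right h3 hτ0.le)
        omega
      · exact (hPX p (hJP j hp)).2
    refine le_trans ?_ h1
    have hzi := hlz i
    have h2' : cM * (l / 2 / Real.log (z i)) ≤ ∏ p ∈ (range i).biUnion J, (1 - 1 / (p : ℝ)) := by
      refine le_trans ?_ h2
      refine mul_le_mul_of_nonneg_left ?_ hcM.le
      exact div_le_div_of_nonneg_right hlogy hzi.le
    have h3 : 1 / 2 * (cM * (l / 2 / Real.log (z i))) ≤ Real.exp (-(ε / 4)) *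
        ∏ p ∈ (range i).biUnion J, (1 - 1 / (p : ℝ)) :=
      mul_le_mul hexp2 h2' (by positivity) (Real.exp_pos _).le
    refine le_trans (le_of_eq ?_) h3
    field_simp
    norm_num
  -- the size of the exceptional sets
  set lam : ℝ := Real.log (128 / ε ^ 2 * Λ ^ 2) with hlam
  have hΛ2 : 1 ≤ Λ ^ 2 := one_le_pow₀ hΛ1
  have h128 : 1 ≤ 128 / ε ^ 2 := by rw [le_div_iff₀ (by positivity)]; linarith
  have harg : 1 ≤ 128 / ε ^ 2 * Λ ^ 2 := ax_one h128 hΛ2
  have hlam0 : 0 ≤ lam := Real.log_nonneg harg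
  have hlog0 : 0 ≤ Real.log (48 / τ) := Real.log_nonneg (by rw [le_div_iff₀ hτ0]; linarith)
  have hlogs : 2 * (1 + Real.log (48 / τ)) + lam ≤ 4 * (1 + Real.log (B * Λ)) := by
    have h1 : Real.log (48 / τ) ≤ Real.log (B * Λ) := by
      refine Real.log_le_log (by positivity) ?_
      have e : 48 / τ = 3072 / ε * Λ := by
        rw [hτ]
        field_simp
        norm_num
      rw [e, hB]
      refine mul_le_mul_of_nonneg_right ?_ hΛ0.le
      exact div_le_div_of_nonneg_left (by norm_num) (by positivity) hε22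
    have h2 : lam ≤ 2 * Real.log (B * Λ) := by
      have h3 : 2 * Real.log (B * Λ) = Real.log ((B * Λ) ^ 2) := by
        rw [Real.log_pow]
        norm_num
      rw [h3, hlam]
      refine Real.log_le_log (by linarith) ?_
      rw [mul_pow]
      refine mul_le_mul_of_nonneg_right ?_ (by positivity)
      have h4 : B ≤ B ^ 2 := ax_sq' hB1
      refine le_trans ?_ h4
      rw [hB]
      exact div_le_div_of_nonneg_right (by norm_num) (by positivity)
    linarith
  have hcond : ∀ i < k, 2 * (1 + D i * Real.log (48 / τ)) + lam ≤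
      τ ^ 2 * τ / (4 * m) * (H.card * ∏ j ∈ range i, α j) := by
    intro i hi
    have h2 := hprodz i hi
    have hzi := hlz i
    have h4 : (D i : ℝ) ≤ L / Real.log (z i) := Nat.floor_le (by positivity)
    have h5 : 1 ≤ L / Real.log (z i) := by
      rw [le_div_iff₀ hzi, one_mul]
      exact hlzX i
    have h6 : 2 * (1 + D i * Real.log (48 / τ)) + lam ≤
        (2 * (1 + Real.log (48 / τ)) + lam) * (L / Real.log (z i)) :=
      ax_D h4 h5 hlog0 hlam0
    have h7 := mul_le_mul_of_nonneg_right hlogs (by positivity : 0 ≤ L / Real.log (z i))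
    have h8 := hbig l hll
    rw [← hΛ, one_mul] at h8
    have h9 : 4 * (1 + Real.log (B * Λ)) ≤ l ^ 4 / (A' * Λ ^ 3) := by
      rw [le_div_iff₀ (by positivity)]
      linarith
    have h10 : l ^ 4 / (A' * Λ ^ 3) * (L / Real.log (z i)) =
        τ ^ 2 * τ / (4 * m) * (m * (L * l ^ 3) * (cM * l / (4 * Real.log (z i)))) := by
      rw [hA', hτ]
      field_simp
      norm_num
    calc 2 * (1 + D i * Real.log (48 / τ)) + lam
        ≤ 4 * (1 + Real.log (B * Λ)) * (L / Real.log (z i)) := h6.trans h7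
      _ ≤ l ^ 4 / (A' * Λ ^ 3) * (L / Real.log (z i)) :=
          mul_le_mul_of_nonneg_right h9 (by positivity)
      _ = _ := h10
      _ ≤ _ := by
          refine mul_le_mul_of_nonneg_left ?_ (by positivity)
          exact mul_le_mul hcard h2 (by positivity) (Nat.cast_nonneg _)
  have hkexp : k * Real.exp (-lam) ≤ ε := by
    have h1 : Real.exp (-lam) = ε ^ 2 / (128 * Λ ^ 2) := by
      rw [Real.exp_neg, hlam, Real.exp_log (by linarith)]
      field_simp
    have h2 : (k : ℝ) ≤ 128 / ε * Λ ^ 2 := by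
      have h4 : Λ / τ = 64 / ε * Λ ^ 2 := by
        rw [hτ]
        field_simp
      rw [h4] at hkτ
      have h5 : 1 ≤ 64 / ε * Λ ^ 2 := by
        have h7 : 1 ≤ 64 / ε := by rw [le_div_iff₀ hε]; linarith
        exact ax_one h7 hΛ2
      have e : 128 / ε * Λ ^ 2 = 64 / ε * Λ ^ 2 + 64 / ε * Λ ^ 2 := by ring
      rw [e]
      linarith
    rw [h1]
    calc (k : ℝ) * (ε ^ 2 / (128 * Λ ^ 2)) ≤ 128 / ε * Λ ^ 2 * (ε ^ 2 / (128 * Λ ^ 2)) :=
          mul_le_mul_of_nonneg_right h2 (by positivity)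
      _ = ε := by field_simp
  -- apply the recursion
  set M : ℕ → ℕ := fun p => N / p ^ N.factorization p with hM
  set K : ℕ → ℕ := fun p => p ^ N.factorization p with hK
  have hDat : Dat N M K P := dat_of hN fun p hp => ⟨hP p hp, hPN p hp⟩
  set T : ι → Finset ℕ := fun x => P.filter (fun p => p ∣ d x) with hT
  have hdeg : ∀ i < k, ∀ x ∈ I, (J i ∩ T x).card ≤ D i := by
    intro i _ x hx
    obtain ⟨hd0, hdX, _⟩ := hf x hx
    rcases (J i ∩ T x).eq_empty_or_nonempty with h | h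
    · rw [h, card_empty]; exact Nat.zero_le _
    have hJne : (J i).Nonempty := h.mono inter_subset_left
    have hzi : z i = (J i).min' hJne := by simp only [hz]; rw [dif_pos hJne]
    have h1 : (z i) ^ (J i ∩ T x).card ≤ X := by
      calc (z i) ^ (J i ∩ T x).card = ∏ _p ∈ J i ∩ T x, z i := by rw [prod_const]
        _ ≤ ∏ p ∈ J i ∩ T x, p := by
          refine prod_le_prod' fun p hp => ?_
          rw [hzi]
          exact (J i).min'_le p (mem_inter.1 hp).1
        _ ≤ ∏ p ∈ T x, p := by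
          refine prod_le_prod_of_subset_of_one_le' inter_subset_right fun p hp _ => ?_
          exact (hP p (mem_filter.1 hp).1).pos
        _ ≤ X := hdX
    have h2 : ((z i : ℝ)) ^ (J i ∩ T x).card ≤ X := by exact_mod_cast h1
    have hz0 : (0 : ℝ) < z i := by exact_mod_cast (by have := hz2 i; omega : 0 < z i)
    have h3 := Real.log_le_log (by positivity) h2
    rw [Real.log_pow] at h3
    refine Nat.le_floor ?_
    rw [le_div_iff₀ (hlz i)]
    exact h3
  have hmain := pblocks (N := N) (M := M) (K := K) (lam := lam) I T hm hτ0 (by linarith : τ ≤ 1)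
    hτ0.le k J D α (by rw [hun]; exact hDat) (fun i _ j _ hij => hdis i j hij) hdeg
    (fun i _ => ⟨hα0 i, le_rfl⟩) f (fun x hx => per_of_dvd (hf x hx).2.2 (hIN x hx))
    (by
      rw [hun]
      intro x hx p hp hpT
      refine per_of_dvd (hf x hx).2.2 (dvd_compl (hP p hp) (hIN x hx) fun h => hpT ?_)
      exact mem_filter.2 ⟨hp, h⟩) w hw H (by rw [hun]; exact hH) hcond
  rw [hun] at hmain
  have hV0 : 0 ≤ ∏ p ∈ P, (1 - 1 / (p : ℝ)) := prod_nonneg fun p hp => by
    have : (2 : ℝ) ≤ p := by exact_mod_cast (hP p hp).two_le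
    rw [sub_nonneg, div_le_one (by linarith)]; linarith
  have hfin : (1 - ε) * ((∏ p ∈ P, (1 - 1 / (p : ℝ))) * H.card) ≤ (∏ i ∈ range k, α i) * H.card := by
    have h2 := hprodα k le_rfl
    rw [hun] at h2
    rw [← mul_assoc]
    refine mul_le_mul_of_nonneg_right ?_ (Nat.cast_nonneg _)
    refine le_trans ?_ h2
    refine mul_le_mul_of_nonneg_right ?_ hV0
    have := Real.add_one_le_exp (-(ε / 4))
    linarith
  have hW0 : 0 ≤ ∑ n ∈ range N, |w n| := sum_nonneg fun n _ => abs_nonneg _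
  refine le_trans (sum_le_sum fun n _ => ?_) (hmain.trans (mul_le_mul_of_nonneg_right hkexp hW0))
  refine mul_le_mul_of_nonneg_left ?_ (abs_nonneg _)
  by_cases h1 : ((surv P H n).card : ℝ) < (∏ i ∈ range k, α i) * H.card
  · rw [if_pos h1]
    split_ifs <;> norm_num
  · rw [if_neg h1, if_neg fun h2 => h1 (lt_of_lt_of_le h2 hfin)]

end Pool.Agent.R526.NW
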