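import Pool.Agent.R526.NW.Mgf

/-!
The recursion over the blocks of primes, for the mass of the exceptional set.
-/

set_option autoImplicit false

namespace Pool.Agent.R526.NW

open Finset Pool.Agent.Y835.SB

open Classical in
theorem pblocks {N : ℕ} {M K : ℕ → ℕ} {ι : Type} (I : Finset ι) (T : ι → Finset ℕ) {m η τ lam : ℝ}
    (hm : 0 < m) (hη0 : 0 < η) (hη1 : η ≤ 1) (hτ : 0 ≤ τ) : ∀ (k : ℕ) (J : ℕ → Finset ℕ)
    (D : ℕ → ℕ) (α : ℕ → ℝ), Dat N M K ((range k).biUnion J) →
    (∀ i < k, ∀ j < k, i ≠ j → Disjoint (J i) (J j)) →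
    (∀ i < k, ∀ x ∈ I, (J i ∩ T x).card ≤ D i) →
    (∀ i < k, 0 < α i ∧ α i ≤ 1 - (1 + η) * ∑ p ∈ J i, 1 / (p : ℝ) - η * τ) →
    ∀ (f : ι → ℕ → ℝ), (∀ x ∈ I, Function.Periodic (f x) N) →
    (∀ x ∈ I, ∀ p ∈ (range k).biUnion J, p ∉ T x → Function.Periodic (f x) (M p)) →
    ∀ w : ℕ → ℝ, (∀ n, w n = ∑ x ∈ I, f x n) →
    ∀ H : Finset ℕ, (∀ p ∈ (range k).biUnion J, ∀ n, hit H p n ≤ m) →
    (∀ i < k, 2 * (1 + D i * Real.log (48 / η)) + lam ≤
      η ^ 2 * τ / (4 * m) * (H.card * ∏ j ∈ range i, α j)) →
    ∑ n ∈ range N, |w n| * (if ((surv ((range k).biUnion J) H n).card : ℝ) <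
      (∏ i ∈ range k, α i) * H.card then (1 : ℝ) else 0) ≤
      k * Real.exp (-lam) * ∑ n ∈ range N, |w n| := by
  intro k
  induction k with
  | zero =>
    intro J D α _ _ _ _ f _ _ w _ H _ _
    have h1 : ∀ n ∈ range N, |w n| * (if ((surv ((range 0).biUnion J) H n).card : ℝ) <
      (∏ i ∈ range 0, α i) * H.card then (1 : ℝ) else 0) = 0 := by
      intro n _
      have e : surv ((range 0).biUnion J) H n = H := by
        unfold surv
        exact filter_true_of_mem fun h _ p hp => absurd hp (by simp)
      rw [e, range_zero, prod_empty, one_mul, if_neg (lt_irrefl _), mul_zero]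
    rw [sum_congr rfl h1, sum_const_zero, Nat.cast_zero, zero_mul, zero_mul]
  | succ k ih =>
    intro J D α hD hdis hdeg hα f hfN hfM w hw H hH hcond
    set Qr : Finset ℕ := (range k).biUnion (fun i => J (i + 1)) with hQr
    have hQ : (range (k + 1)).biUnion J = J 0 ∪ Qr := by
      ext p
      simp only [hQr, mem_union, mem_biUnion, mem_range]
      constructor
      · rintro ⟨i, hi, hp⟩
        rcases i with _ | i
        · exact Or.inl hp
        · exact Or.inr ⟨i, by omega, hp⟩
      · rintro (hp | ⟨i, hi, hp⟩)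
        · exact ⟨0, by omega, hp⟩
        · exact ⟨i + 1, by omega, hp⟩
    have hH' : ∀ p ∈ J 0 ∪ Qr, ∀ n, hit H p n ≤ m := by
      rw [← hQ]
      exact hH
    rw [hQ] at hD hfM ⊢
    have hdJ : ∀ p ∈ J 0, ∀ q ∈ Qr, p ≠ q := by
      intro p hp q hq hpq
      subst hpq
      rw [hQr, mem_biUnion] at hq
      obtain ⟨i, hi, hq⟩ := hq
      rw [mem_range] at hi
      exact (Finset.disjoint_left.1 (hdis 0 (by omega) (i + 1) (by omega) (by omega))) hp hq
    set W : ℝ := ∑ n ∈ range N, |w n| with hW
    have hW0 : 0 ≤ W := sum_nonneg fun n _ => abs_nonneg _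
    obtain ⟨hα0, hα1⟩ := hα 0 (by omega)
    set P' : ℝ := ∏ i ∈ range k, α (i + 1) with hP'
    have hP'0 : 0 ≤ P' := prod_nonneg fun i hi => (hα (i + 1) (by rw [mem_range] at hi; omega)).1.le
    have hprod : ∏ i ∈ range (k + 1), α i = P' * α 0 := prod_range_succ' _ _
    set θ : ℝ := η / (4 * m) with hθ
    have hθ0 : 0 < θ := by positivity
    set t0 : ℝ := ∑ p ∈ J 0, 1 / (p : ℝ) with ht0
    -- the first block
    have hfirst : ∑ n ∈ range N, |w n| * (if ((surv (J 0) H n).card : ℝ) < α 0 * H.card then (1 : ℝ)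
        else 0) ≤ Real.exp (-lam) * W := by
      have hmgf := mgf_hits (N := N) (M := M) (K := K) (l := (J 0).toList) (J 0).nodup_toList
        (by rw [Finset.toList_toFinset]; exact hD.sub subset_union_left) I T f hfN
        (fun x hx p hp => hfM x hx p (mem_union_left _ (Finset.mem_toList.1 hp))) (D 0)
        (fun x hx => by
          have h3 := hdeg 0 (by omega) x hx
          refine le_trans (le_of_eq ?_) h3
          rw [← List.toFinset_card_of_nodup ((J 0).nodup_toList.filter _)]
          congr 1
          ext p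
          simp) hw H hm (fun p hp n => hH' p (mem_union_left _ (Finset.mem_toList.1 hp)) n) hη0 hη1
      have hl1 : ∀ n, ((J 0).toList.map fun p => hit H p n).sum = ∑ p ∈ J 0, hit H p n := fun n =>
        Finset.sum_map_toList _ _
      have hl2 : ((J 0).toList.map fun p : ℕ => 1 / (p : ℝ)).sum = t0 :=
        Finset.sum_map_toList _ _
      rw [hl2, sum_congr rfl fun n _ => by rw [hl1]] at hmgf
      rw [← hθ, ← hW] at hmgf
      set c1 : ℝ := θ * (((1 + η) * t0 + η * τ) * H.card) with hc1
      have h1 : ∀ n ∈ range N, |w n| * (if ((surv (J 0) H n).card : ℝ) < α 0 * H.card then (1 : ℝ)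
          else 0) ≤ |w n| * Real.exp (θ * ∑ p ∈ J 0, hit H p n) * Real.exp (-c1) := by
        intro n _
        rw [mul_assoc]
        refine mul_le_mul_of_nonneg_left ?_ (abs_nonneg _)
        rw [← Real.exp_add]
        split_ifs with h2
        · apply Real.one_le_exp
          have h3 := surv_ge (J 0) H n
          have h4 : α 0 * H.card ≤ (1 - (1 + η) * t0 - η * τ) * H.card :=
            mul_le_mul_of_nonneg_right hα1 (Nat.cast_nonneg _)
          have h5 : ((1 + η) * t0 + η * τ) * H.card ≤ ∑ p ∈ J 0, hit H p n := by linarith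
          have h6 := mul_le_mul_of_nonneg_left h5 hθ0.le
          rw [hc1]
          linarith
        · exact (Real.exp_pos _).le
      refine (sum_le_sum h1).trans ?_
      rw [← sum_mul]
      refine (mul_le_mul_of_nonneg_right hmgf (Real.exp_pos _).le).trans ?_
      have h2 := hcond 0 (by omega)
      rw [range_zero, prod_empty, mul_one] at h2
      have h3 : Real.exp (2 * (1 + D 0 * Real.log (48 / η)) + (1 + η) * (θ * (t0 * H.card))) * W *
          Real.exp (-c1) = Real.exp (2 * (1 + D 0 * Real.log (48 / η)) +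
            (1 + η) * (θ * (t0 * H.card)) + -c1) * W := by
        rw [Real.exp_add _ (-c1)]
        ring
      rw [h3]
      refine mul_le_mul_of_nonneg_right (Real.exp_le_exp.2 ?_) hW0
      have h4 : η ^ 2 * τ / (4 * m) * H.card = θ * (η * τ * H.card) := by
        rw [hθ]
        ring
      rw [h4] at h2
      rw [hc1]
      linarith
    -- splitting by the set of survivors of `J 0`
    set S : Finset (Finset ℕ) := H.powerset.filter (fun A => α 0 * H.card ≤ (A.card : ℝ)) with hS
    set gA : Finset ℕ → ℕ → ℝ := fun A n => if surv (J 0) H n = A then (1 : ℝ) else 0 with hgA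
    have hgA0 : ∀ A n, 0 ≤ gA A n := fun A n => by simp only [hgA]; split_ifs <;> norm_num
    have hsplit : ∀ n ∈ range N, |w n| * (if ((surv (J 0 ∪ Qr) H n).card : ℝ) <
        (∏ i ∈ range (k + 1), α i) * H.card then (1 : ℝ) else 0) ≤
        |w n| * (if ((surv (J 0) H n).card : ℝ) < α 0 * H.card then (1 : ℝ) else 0) +
        ∑ A ∈ S, |w n * gA A n| * (if ((surv Qr A n).card : ℝ) < P' * A.card then (1 : ℝ) else 0) := by
      intro n _
      have hnn : ∀ A ∈ S, 0 ≤ |w n * gA A n| *
          (if ((surv Qr A n).card : ℝ) < P' * A.card then (1 : ℝ) else 0) := fun A _ =>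
        mul_nonneg (abs_nonneg _) (by split_ifs <;> norm_num)
      by_cases h1 : ((surv (J 0) H n).card : ℝ) < α 0 * H.card
      · rw [if_pos h1, mul_one]
        have h2 := sum_nonneg hnn
        have h3 : |w n| * (if ((surv (J 0 ∪ Qr) H n).card : ℝ) <
          (∏ i ∈ range (k + 1), α i) * H.card then (1 : ℝ) else 0) ≤ |w n| := by
          refine mul_le_of_le_one_right (abs_nonneg _) ?_
          split_ifs <;> norm_num
        linarith
      · rw [if_neg h1, mul_zero, zero_add]
        have h2 : surv (J 0) H n ∈ S :=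
          mem_filter.2 ⟨mem_powerset.2 (surv_sub _ _ _), not_lt.1 h1⟩
        refine le_trans ?_ (single_le_sum hnn h2)
        have h3 : gA (surv (J 0) H n) n = 1 := by simp [hgA]
        rw [h3, mul_one, surv_union]
        refine mul_le_mul_of_nonneg_left ?_ (abs_nonneg _)
        by_cases h4 : ((surv Qr (surv (J 0) H n) n).card : ℝ) < P' * (surv (J 0) H n).card
        · rw [if_pos h4]
          split_ifs <;> norm_num
        · rw [if_neg h4, if_neg]
          intro h5
          apply h4
          refine lt_of_lt_of_le h5 ?_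
          rw [hprod, mul_assoc]
          exact mul_le_mul_of_nonneg_left (not_lt.1 h1) hP'0
    refine (sum_le_sum hsplit).trans ?_
    rw [sum_add_distrib, sum_comm (s := range N) (t := S)]
    have hstep : ∀ A ∈ S, ∑ n ∈ range N, |w n * gA A n| *
        (if ((surv Qr A n).card : ℝ) < P' * A.card then (1 : ℝ) else 0) ≤
        k * Real.exp (-lam) * ∑ n ∈ range N, |w n * gA A n| := by
      intro A hA
      obtain ⟨hAH, hAc⟩ := mem_filter.1 hA
      rw [mem_powerset] at hAH
      have hgper : ∀ L : ℕ, (∀ p ∈ J 0, p ∣ L) → Function.Periodic (gA A) L := by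
        intro L hL n
        simp only [hgA]
        rw [surv_per H hL]
      have hgN : Function.Periodic (gA A) N := hgper N fun p hp => by
        have hpD : p ∈ J 0 ∪ Qr := mem_union_left _ hp
        obtain ⟨k', hk', hK'⟩ := hD.pow p hpD
        rw [← hD.mul p hpD, hK']
        exact (dvd_pow_self p (by omega)).mul_left _
      have hgM : ∀ q ∈ Qr, Function.Periodic (gA A) (M q) := fun q hq => hgper (M q) fun p hp =>
        hD.dvd q (mem_union_right _ hq) p (mem_union_left _ hp) (hdJ p hp q hq)
      refine ih (fun i => J (i + 1)) (fun i => D (i + 1)) (fun i => α (i + 1))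
        (hD.sub subset_union_right)
        (fun i hi j hj hij => hdis (i + 1) (by omega) (j + 1) (by omega) (by omega))
        (fun i hi => hdeg (i + 1) (by omega)) (fun i hi => hα (i + 1) (by omega))
        (fun x n => f x n * gA A n) (fun x hx n => by simp only [hfN x hx n, hgN n])
        (fun x hx p hp hpT n => by
          simp only [hfM x hx p (mem_union_right _ hp) hpT n, hgM p hp n])
        (fun n => w n * gA A n) (fun n => by rw [hw n, sum_mul]) A
        (fun p hp n => ?_) (fun i hi => ?_)
      · have h1 : hit A p n ≤ hit H p n := by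
          unfold hit
          exact_mod_cast card_le_card (filter_subset_filter _ hAH)
        exact h1.trans (hH' p (mem_union_right _ hp) n)
      · have h1 := hcond (i + 1) (by omega)
        refine h1.trans ?_
        have h2 : 0 ≤ ∏ j ∈ range i, α (j + 1) := prod_nonneg fun j hj => by
          rw [mem_range] at hj
          exact (hα (j + 1) (by omega)).1.le
        rw [prod_range_succ']
        refine mul_le_mul_of_nonneg_left ?_ (by positivity)
        have h3 : (H.card : ℝ) * ((∏ j ∈ range i, α (j + 1)) * α 0) =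
            α 0 * H.card * ∏ j ∈ range i, α (j + 1) := by ring
        rw [h3]
        exact mul_le_mul_of_nonneg_right hAc h2
    have h2 : ∑ A ∈ S, ∑ n ∈ range N, |w n * gA A n| ≤ W := by
      rw [sum_comm]
      refine sum_le_sum fun n _ => ?_
      have h3 : ∀ A ∈ S, |w n * gA A n| = if surv (J 0) H n = A then |w n| else 0 := by
        intro A _
        simp only [hgA]
        split_ifs
        · rw [mul_one]
        · rw [mul_zero, abs_zero]
      rw [sum_congr rfl h3, sum_ite_eq]
      split_ifs
      · exact le_rfl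
      · exact abs_nonneg _
    have h3 := sum_le_sum hstep
    rw [← mul_sum] at h3
    have h4 : k * Real.exp (-lam) * ∑ A ∈ S, ∑ n ∈ range N, |w n * gA A n| ≤
        k * Real.exp (-lam) * W := mul_le_mul_of_nonneg_left h2 (by positivity)
    push_cast
    linarith

end Pool.Agent.R526.NW
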